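import Mathlib

/-!
MP_1bf3cf_lc: definitions. The integer cone of the circuits of a graph, two-terminal graphs with weights, and the replacement
of every edge of a graph by a two-terminal graph.
-/

set_option autoImplicit false

namespace Pool.Agent.Helper59.CW

open Finset

section cone

variable {V E : Type} [Fintype V] [DecidableEq V] [Fintype E] [DecidableEq E]

/-- The number of times the edge with ends `s e`, `t e` is incident with `v` (a loop counts twice). -/
def ends (s t : E → V) (e : E) (v : V) : ℕ := (if s e = v then 1 else 0) + (if t e = v then 1 else 0)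

/-- A set of edges in which every vertex has even degree. -/
def IsEvenSet (s t : E → V) (C : Finset E) : Prop := ∀ v, Even (∑ e ∈ C, ends s t e v)

/-- A circuit: a minimal nonempty set of edges in which every vertex has even degree. -/
def IsCircuit (s t : E → V) (C : Finset E) : Prop :=
  C.Nonempty ∧ IsEvenSet s t C ∧ ∀ D ⊆ C, D.Nonempty → IsEvenSet s t D → D = C

/-- `p` is a nonnegative integer combination of the characteristic vectors of the circuits. -/
def InIntCone (s t : E → V) (p : E → ℕ) : Prop :=
  ∃ lam : Finset E → ℕ, (∀ C, lam C ≠ 0 → IsCircuit s t C) ∧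
    ∀ e, p e = ∑ C ∈ univ.filter (fun C : Finset E => e ∈ C), lam C

end cone

/-- A finite two-terminal graph with weights: vertices `W`, edges `F` with the ends `s f`, `t f` and the weights `p f`,
terminals `a ≠ b`. -/
structure Gad : Type 1 where
  /-- vertices -/
  W : Type
  /-- edges -/
  F : Type
  [fW : Fintype W]
  [dW : DecidableEq W]
  [fF : Fintype F]
  [dF : DecidableEq F]
  /-- first end -/
  s : F → W
  /-- second end -/
  t : F → W
  /-- first terminal -/
  a : W
  /-- second terminal -/
  b : W
  ab : a ≠ b
  /-- weights -/
  p : F → ℕ

attribute [instance] Gad.fW Gad.dW Gad.fF Gad.dF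

section subst

variable {V E : Type}

/-- The place of the vertex `w` of the two-terminal graph `g e` when every edge `e` is replaced by `g e`: the terminals are
identified with the ends of `e`, the other vertices are new. -/
def loc (s t : E → V) (g : E → Gad) (e : E) (w : (g e).W) : V ⊕ (Σ e, (g e).W) :=
  if w = (g e).a then Sum.inl (s e) else if w = (g e).b then Sum.inl (t e) else Sum.inr ⟨e, w⟩

/-- First ends of the edges after the replacement of every edge `e` by `g e`. -/
def newS (s t : E → V) (g : E → Gad) (x : Σ e, (g e).F) : V ⊕ (Σ e, (g e).W) := loc s t g x.1 ((g x.1).s x.2)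

/-- Second ends of the edges after the replacement. -/
def newT (s t : E → V) (g : E → Gad) (x : Σ e, (g e).F) : V ⊕ (Σ e, (g e).W) := loc s t g x.1 ((g x.1).t x.2)

/-- The weights after the replacement. -/
def newP (g : E → Gad) (x : Σ e, (g e).F) : ℕ := (g x.1).p x.2

end subst

end Pool.Agent.Helper59.CW
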