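import Pool.Agent.Helper97.CC.CutFinal
import Pool.Agent.Helper59.CW.Defs

/-!
MP_1bf3cf_lc: coverings by even sets with prescribed boundaries, and the replacement of edges by two-terminal graphs.
-/

set_option autoImplicit false
set_option linter.unusedSectionVars false
set_option linter.unusedSimpArgs false

namespace Pool.Agent.Helper59.CW

open Finset

section defs

variable {V E : Type} [Fintype V] [DecidableEq V] [Fintype E] [DecidableEq E]

/-- The boundary modulo 2. -/
def bd (s t : E → V) (A : Finset E) (v : V) : ZMod 2 :=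
  ∑ e, if e ∈ A then ((if s e = v then 1 else 0) + (if t e = v then 1 else 0)) else 0

/-- There are `n` sets of edges with the boundaries `d i` such that every edge `e` is in exactly `p e` of them. -/
def Real (s t : E → V) (p : E → ℕ) (n : ℕ) (d : Fin n → V → ZMod 2) : Prop :=
  ∃ A : Fin n → Finset E, (∀ e, (univ.filter (fun i => e ∈ A i)).card = p e) ∧ ∀ i v, bd s t (A i) v = d i v

end defs

section link

variable {V E : Type} [Fintype V] [DecidableEq V] [Fintype E] [DecidableEq E]

lemma even_iff (s t : E → V) (A : Finset E) : IsEvenSet s t A ↔ ∀ v, bd s t A v = 0 := by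
  unfold IsEvenSet bd
  apply forall_congr'
  intro v
  rw [← ZMod.natCast_eq_zero_iff_even]
  push_cast
  rw [← sum_filter]
  have h : (univ.filter (fun e => e ∈ A)) = A := by ext; simp
  rw [h]
  have h2 : ∀ e ∈ A, ((ends s t e v : ℕ) : ZMod 2) = ((if s e = v then 1 else 0) + (if t e = v then 1 else 0)) := by
    intro e _
    unfold ends
    push_cast
    rfl
  rw [sum_congr rfl h2]

open Pool.Agent.Helper97.CC in
lemma ev_iff (s t : E → V) (C : Finset E) : Ev (inc s t) C ↔ IsEvenSet s t C := by
  rw [even_iff]
  unfold Ev bd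
  rw [funext_iff]
  apply forall_congr'
  intro v
  rw [Finset.sum_apply, Pi.zero_apply, ← sum_filter]
  have h : (univ.filter (fun e => e ∈ C)) = C := by ext; simp
  rw [h]
  have h2 : ∀ e ∈ C, inc s t e v = ((if s e = v then 1 else 0) + (if t e = v then 1 else 0)) := by
    intro e _
    unfold inc
    simp only [Pi.add_apply, Pi.single_apply, eq_comm]
  rw [sum_congr rfl h2]

open Pool.Agent.Helper97.CC in
lemma circ_iff (s t : E → V) (C : Finset E) : Circ (inc s t) C ↔ IsCircuit s t C := by
  unfold Circ IsCircuit
  rw [ev_iff]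
  refine and_congr_right fun _ => and_congr_right fun _ => ?_
  apply forall_congr'
  intro D
  rw [ev_iff]

lemma list_sum (L : List (Finset E)) (e : E) :
    L.countP (fun C => e ∈ C) = ∑ C ∈ univ.filter (fun C : Finset E => e ∈ C), L.count C := by
  induction L with
  | nil => simp
  | cons C0 L ih =>
    rw [List.countP_cons, ih]
    have h1 : ∀ C : Finset E, (C0 :: L).count C = L.count C + (if C0 = C then 1 else 0) := by
      intro C
      rw [List.count_cons]
      simp
    simp only [h1]
    rw [sum_add_distrib, sum_ite_eq]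
    by_cases h : e ∈ C0 <;> simp [h]

lemma card_get (L : List (Finset E)) (e : E) :
    (univ.filter (fun i : Fin L.length => e ∈ L.get i)).card = L.countP (fun C => e ∈ C) := by
  rw [card_filter, Pool.Agent.Helper97.CC.countP_sum]
  have h3 : L.map (fun F => Pool.Agent.Helper97.CC.ind F e)
      = List.ofFn (fun i => Pool.Agent.Helper97.CC.ind (L.get i) e) := by
    apply List.ext_getElem
    · simp
    · intro k hk1 hk2
      simp
  rw [h3, List.sum_ofFn]
  rfl

/-- the integer cone in terms of coverings by even sets -/
theorem cone_iff (s t : E → V) (p : E → ℕ) : InIntCone s t p ↔ ∃ n, Real s t p n (fun _ _ => 0) := by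
  constructor
  · rintro ⟨lam, h1, h2⟩
    let L : List (Finset E) := (univ : Finset (Finset E)).toList.flatMap (fun C => List.replicate (lam C) C)
    have hL : ∀ C ∈ L, IsCircuit s t C := by
      intro C hC
      rw [List.mem_flatMap] at hC
      obtain ⟨D, _, hD⟩ := hC
      rw [List.mem_replicate] at hD
      rw [hD.2]
      exact h1 D hD.1
    have hc : ∀ C, L.count C = lam C := by
      intro C
      rw [List.count_flatMap]
      have h3 : (List.map (List.count C ∘ fun C => List.replicate (lam C) C) (univ : Finset (Finset E)).toList).sum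
          = ∑ D : Finset E, List.count C (List.replicate (lam D) D) := by
        rw [← Finset.sum_map_toList]
        rfl
      rw [h3, Finset.sum_eq_single C]
      · simp
      · intro D _ hD
        rw [List.count_replicate]
        simp [hD]
      · intro h
        exact absurd (mem_univ _) h
    refine ⟨L.length, fun i => L.get i, ?_, ?_⟩
    · intro e
      rw [card_get, list_sum, h2 e]
      exact sum_congr rfl fun C _ => hc C
    · intro i v
      exact (even_iff s t _).1 (hL _ (List.get_mem L i)).2.1 v
  · rintro ⟨n, A, h1, h2⟩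
    have hdec : Pool.Agent.Helper97.CC.Dec (Pool.Agent.Helper97.CC.inc s t) p := by
      refine ⟨List.ofFn A, ?_, ?_⟩
      · intro F hF
        rw [List.mem_ofFn] at hF
        obtain ⟨i, rfl⟩ := hF
        rw [ev_iff, even_iff]
        exact h2 i
      · intro e
        rw [Pool.Agent.Helper97.CC.countP_sum, List.map_ofFn, List.sum_ofFn, ← h1 e, card_filter]
        rfl
    obtain ⟨L, h1, h2⟩ := Pool.Agent.Helper97.CC.dec_circ _ p hdec
    refine ⟨fun C => L.count C, ?_, ?_⟩
    · intro C hC
      rw [← circ_iff]
      exact h1 C (List.count_pos_iff.1 (Nat.pos_of_ne_zero hC))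
    · intro e
      rw [h2 e]
      exact list_sum L e

end link

/-- The two-terminal graph behaves like an edge of weight `k`. -/
def Good (g : Gad) (k : ℕ) : Prop :=
  ∀ (n : ℕ) (d : Fin n → g.W → ZMod 2), (∀ i w, w ≠ g.a → w ≠ g.b → d i w = 0) →
    (Real g.s g.t g.p n d ↔ ∃ S : Finset (Fin n), S.card = k ∧
      ∀ i w, d i w = if i ∈ S then (if g.a = w then 1 else 0) + (if g.b = w then 1 else 0) else 0)

section subst

variable {V E : Type} [Fintype V] [DecidableEq V] [Fintype E] [DecidableEq E]

lemma loc_inl (s t : E → V) (g : E → Gad) (e : E) (w : (g e).W) (v : V) :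
    (if loc s t g e w = Sum.inl v then (1 : ZMod 2) else 0)
      = (if s e = v then 1 else 0) * (if w = (g e).a then 1 else 0)
        + (if t e = v then 1 else 0) * (if w = (g e).b then 1 else 0) := by
  have hab := (g e).ab
  unfold loc
  by_cases h1 : w = (g e).a
  · have h2 : w ≠ (g e).b := fun h => hab (h1.symm.trans h)
    simp [h1, hab]
  · by_cases h2 : w = (g e).b
    · have h3 : (g e).b ≠ (g e).a := fun h => hab h.symm
      simp [h2, h3]
    · simp [h1, h2]

lemma loc_inr (s t : E → V) (g : E → Gad) (e : E) (w w0 : (g e).W) :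
    (if loc s t g e w = Sum.inr ⟨e, w0⟩ then (1 : ZMod 2) else 0)
      = if w0 = (g e).a ∨ w0 = (g e).b then 0 else (if w = w0 then 1 else 0) := by
  unfold loc
  by_cases h1 : w = (g e).a
  · by_cases h3 : w0 = (g e).a ∨ w0 = (g e).b
    · simp [h1, h3]
    · have h4 : w ≠ w0 := fun h => h3 (Or.inl (h.symm.trans h1))
      simp [h1, h3]
      intro h5
      exact h3 (Or.inl h5.symm)
  · by_cases h2 : w = (g e).b
    · by_cases h3 : w0 = (g e).a ∨ w0 = (g e).b
      · rw [if_neg h1, if_pos h2, if_pos h3, if_neg (by simp)]
      · rw [if_neg h1, if_pos h2, if_neg h3, if_neg (by simp), if_neg]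
        intro h5
        exact h3 (Or.inr (h5.symm.trans h2))
    · rw [if_neg h1, if_neg h2]
      by_cases h3 : w0 = (g e).a ∨ w0 = (g e).b
      · rw [if_pos h3, if_neg]
        intro h5
        have h6 : w = w0 := by
          have := Sum.inr.inj h5
          simpa using this
        rcases h3 with h | h
        · exact h1 (h6.trans h)
        · exact h2 (h6.trans h)
      · rw [if_neg h3]
        by_cases h6 : w = w0
        · simp [h6]
        · rw [if_neg h6, if_neg]
          intro h5
          have := Sum.inr.inj h5
          exact h6 (by simpa using this)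

lemma loc_inr_ne (s t : E → V) (g : E → Gad) (e e0 : E) (h : e ≠ e0) (w : (g e).W) (w0 : (g e0).W) :
    loc s t g e w ≠ Sum.inr ⟨e0, w0⟩ := by
  unfold loc
  by_cases h1 : w = (g e).a
  · simp [h1]
  · by_cases h2 : w = (g e).b
    · rw [if_neg h1, if_pos h2]
      simp
    · rw [if_neg h1, if_neg h2]
      intro h5
      have := Sum.inr.inj h5
      exact h (by simpa using (Sigma.mk.inj_iff.1 this).1)

/-- The part of `A` in `g e`. -/
def slice (g : E → Gad) (A : Finset (Σ e, (g e).F)) (e : E) : Finset (g e).F :=
  univ.filter (fun f => (⟨e, f⟩ : Σ e, (g e).F) ∈ A)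

lemma mem_slice (g : E → Gad) (A : Finset (Σ e, (g e).F)) (e : E) (f : (g e).F) :
    f ∈ slice g A e ↔ (⟨e, f⟩ : Σ e, (g e).F) ∈ A := by simp [slice]

lemma bd_inl (s t : E → V) (g : E → Gad) (A : Finset (Σ e, (g e).F)) (v : V) :
    bd (newS s t g) (newT s t g) A (Sum.inl v)
      = ∑ e, ((if s e = v then 1 else 0) * bd (g e).s (g e).t (slice g A e) (g e).a
        + (if t e = v then 1 else 0) * bd (g e).s (g e).t (slice g A e) (g e).b) := by
  unfold bd
  rw [Fintype.sum_sigma]
  apply sum_congr rfl
  intro e _
  rw [mul_sum, mul_sum, ← sum_add_distrib]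
  apply sum_congr rfl
  intro f _
  by_cases h : (⟨e, f⟩ : Σ e, (g e).F) ∈ A
  · have h' := (mem_slice g A e f).2 h
    rw [if_pos h, if_pos h', if_pos h']
    unfold newS newT
    rw [loc_inl, loc_inl]
    ring
  · have h' := fun h1 => h ((mem_slice g A e f).1 h1)
    rw [if_neg h, if_neg h', if_neg h']
    ring

lemma bd_inr (s t : E → V) (g : E → Gad) (A : Finset (Σ e, (g e).F)) (e : E) (w : (g e).W) :
    bd (newS s t g) (newT s t g) A (Sum.inr ⟨e, w⟩)
      = if w = (g e).a ∨ w = (g e).b then 0 else bd (g e).s (g e).t (slice g A e) w := by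
  unfold bd
  rw [Fintype.sum_sigma, Fintype.sum_eq_single e]
  · by_cases h3 : w = (g e).a ∨ w = (g e).b
    · rw [if_pos h3]
      apply sum_eq_zero
      intro f _
      by_cases h : (⟨e, f⟩ : Σ e, (g e).F) ∈ A
      · rw [if_pos h]
        unfold newS newT
        rw [loc_inr, loc_inr, if_pos h3, if_pos h3, add_zero]
      · rw [if_neg h]
    · rw [if_neg h3]
      apply sum_congr rfl
      intro f _
      by_cases h : (⟨e, f⟩ : Σ e, (g e).F) ∈ A
      · rw [if_pos h, if_pos ((mem_slice g A e f).2 h)]
        unfold newS newT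
        rw [loc_inr, loc_inr, if_neg h3, if_neg h3]
      · rw [if_neg h, if_neg (fun h1 => h ((mem_slice g A e f).1 h1))]
  · intro e' he'
    apply sum_eq_zero
    intro f _
    by_cases h : (⟨e', f⟩ : Σ e, (g e).F) ∈ A
    · rw [if_pos h]
      unfold newS newT
      rw [if_neg (loc_inr_ne s t g e' e he' _ w), if_neg (loc_inr_ne s t g e' e he' _ w), add_zero]
    · rw [if_neg h]

/-- The replacement lemma. -/
theorem replace (s t : E → V) (p : E → ℕ) (g : E → Gad) (hg : ∀ e, Good (g e) (p e)) (n : ℕ)
    (d : Fin n → V → ZMod 2) :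
    Real s t p n d ↔ Real (newS s t g) (newT s t g) (newP g) n (fun i => Sum.elim (d i) (fun _ => 0)) := by
  constructor
  · rintro ⟨A, h1, h2⟩
    have key : ∀ e, Real (g e).s (g e).t (g e).p n
        (fun i w => if e ∈ A i then (if (g e).a = w then 1 else 0) + (if (g e).b = w then 1 else 0) else 0) := by
      intro e
      rw [hg e n]
      · refine ⟨univ.filter (fun i => e ∈ A i), h1 e, ?_⟩
        intro i w
        simp
      · intro i w hwa hwb
        simp [Ne.symm hwa, Ne.symm hwb]
    choose B hB1 hB2 using key
    refine ⟨fun i => univ.filter (fun x : Σ e, (g e).F => x.2 ∈ B x.1 i), ?_, ?_⟩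
    · rintro ⟨e, f⟩
      have := hB1 e f
      unfold newP
      simpa using this
    · have hsl : ∀ i e, slice g (univ.filter (fun x : Σ e, (g e).F => x.2 ∈ B x.1 i)) e = B e i := by
        intro i e
        ext f
        rw [mem_slice]
        simp
      intro i x
      rcases x with v | ⟨e, w⟩
      · show bd (newS s t g) (newT s t g) (univ.filter (fun x : Σ e, (g e).F => x.2 ∈ B x.1 i)) (Sum.inl v) = d i v
        rw [bd_inl, ← h2 i v]
        conv_rhs => unfold bd
        apply sum_congr rfl
        intro e _
        rw [hsl, hB2 e i (g e).a, hB2 e i (g e).b]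
        have hab := (g e).ab
        have hba := hab.symm
        by_cases he : e ∈ A i
        · simp [he, hab, hba]
        · simp [he]
      · show bd (newS s t g) (newT s t g) (univ.filter (fun x : Σ e, (g e).F => x.2 ∈ B x.1 i)) (Sum.inr ⟨e, w⟩) = 0
        rw [bd_inr, hsl]
        by_cases h3 : w = (g e).a ∨ w = (g e).b
        · rw [if_pos h3]
        · rw [if_neg h3, hB2]
          rw [not_or] at h3
          simp [Ne.symm h3.1, Ne.symm h3.2]
  · rintro ⟨A, h1, h2⟩
    have key : ∀ e, ∃ S : Finset (Fin n), S.card = p e ∧ ∀ i w, bd (g e).s (g e).t (slice g (A i) e) w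
        = if i ∈ S then (if (g e).a = w then 1 else 0) + (if (g e).b = w then 1 else 0) else 0 := by
      intro e
      rw [← hg e n]
      · refine ⟨fun i => slice g (A i) e, ?_, fun i w => rfl⟩
        intro f
        have := h1 ⟨e, f⟩
        unfold newP at this
        simp only [mem_slice]
        exact this
      · intro i w hwa hwb
        have := h2 i (Sum.inr ⟨e, w⟩)
        rw [bd_inr, if_neg (by rw [not_or]; exact ⟨hwa, hwb⟩)] at this
        exact this
    choose S hS1 hS2 using key
    refine ⟨fun i => univ.filter (fun e => i ∈ S e), ?_, ?_⟩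
    · intro e
      rw [← hS1 e]
      congr 1
      ext i
      simp
    · intro i v
      have := h2 i (Sum.inl v)
      rw [bd_inl] at this
      have h4 : _ = d i v := this
      rw [← h4]
      conv_lhs => unfold bd
      apply sum_congr rfl
      intro e _
      rw [hS2 e i (g e).a, hS2 e i (g e).b]
      have hab := (g e).ab
      have hba := hab.symm
      by_cases he : i ∈ S e
      · simp [he, hab, hba]
      · simp [he]

end subst

end Pool.Agent.Helper59.CW
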