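import Pool.Agent.Helper59.CW.Cubic

/-!
MP_1bf3cf_lc: the weights 1 and 2 on a cubic graph and circuit double covers which extend a 2-factor; the reduction.
-/

set_option autoImplicit false
set_option linter.unusedSectionVars false
set_option linter.unusedSimpArgs false

namespace Pool.Agent.Helper59.CW

open Finset

section cdc

variable {V E : Type} [Fintype V] [DecidableEq V] [Fintype E] [DecidableEq E]

lemma deg_two {s t : E → V} {p : E → ℕ} (h : Cubic12 s t p) (v : V) :
    ∑ e ∈ univ.filter (fun e => p e = 1), ends s t e v = 2 := by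
  have h1 := (h.2 v).1
  have h2 := (h.2 v).2
  have h3 : ∑ e, ends s t e v = ∑ e ∈ univ.filter (fun e => p e = 1), ends s t e v
      + ∑ e ∈ univ.filter (fun e => p e = 2), ends s t e v := by
    rw [sum_filter, sum_filter, ← sum_add_distrib]
    apply sum_congr rfl
    intro e _
    rcases h.1 e with h4 | h4
    · rw [if_pos h4, if_neg (by rw [h4]; norm_num), add_zero]
    · rw [if_pos h4, if_neg (by rw [h4]; norm_num), zero_add]
  omega

lemma inter_even (s t : E → V) (F X Y : Finset E) (hF : ∀ v, ∑ e ∈ F, ends s t e v = 2) (hXF : X ⊆ F) (hYF : Y ⊆ F)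
    (hX : IsEvenSet s t X) (hY : IsEvenSet s t Y) : IsEvenSet s t (X ∩ Y) := by
  intro v
  have h1 : ∑ e ∈ F \ X, ends s t e v + ∑ e ∈ X, ends s t e v = 2 := (sum_sdiff hXF).trans (hF v)
  have h2 : ∑ e ∈ Y \ X, ends s t e v ≤ ∑ e ∈ F \ X, ends s t e v :=
    sum_le_sum_of_subset (sdiff_subset_sdiff hYF (subset_refl X))
  have h3 : ∑ e ∈ X ∩ Y, ends s t e v ≤ ∑ e ∈ X, ends s t e v := sum_le_sum_of_subset inter_subset_left
  have h4 : ∑ e ∈ Y ∩ X, ends s t e v + ∑ e ∈ Y \ X, ends s t e v = ∑ e ∈ Y, ends s t e v :=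
    sum_inter_add_sum_sdiff Y X _
  rw [inter_comm] at h4
  obtain ⟨a, ha⟩ := hX v
  obtain ⟨b, hb⟩ := hY v
  by_cases h5 : a = 0
  · have h6 : ∑ e ∈ X ∩ Y, ends s t e v = 0 := by omega
    rw [h6]
    exact Even.zero
  · have h6 : ∑ e ∈ X ∩ Y, ends s t e v = ∑ e ∈ Y, ends s t e v := by omega
    rw [h6]
    exact hY v

lemma circ_uniq (s t : E → V) (F X Y : Finset E) (hF : ∀ v, ∑ e ∈ F, ends s t e v = 2) (hXF : X ⊆ F) (hYF : Y ⊆ F)
    (hX : IsCircuit s t X) (hY : IsCircuit s t Y) (e : E) (h1 : e ∈ X) (h2 : e ∈ Y) : X = Y := by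
  have h3 := inter_even s t F X Y hF hXF hYF hX.2.1 hY.2.1
  have h4 : (X ∩ Y).Nonempty := ⟨e, mem_inter.2 ⟨h1, h2⟩⟩
  rw [← hX.2.2 _ inter_subset_left h4 h3]
  exact hY.2.2 _ inter_subset_right h4 h3

lemma circ_exists (s t : E → V) (e : E) (n : ℕ) : ∀ X : Finset E, X.card = n → IsEvenSet s t X → e ∈ X →
    ∃ C ⊆ X, IsCircuit s t C ∧ e ∈ C := by
  induction n using Nat.strong_induction_on with
  | _ n ih =>
    intro X hX h1 h2
    by_cases h3 : IsCircuit s t X
    · exact ⟨X, subset_refl _, h3, h2⟩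
    · have h4 : ∃ D ⊆ X, D.Nonempty ∧ IsEvenSet s t D ∧ D ≠ X := by
        by_contra h5
        apply h3
        refine ⟨⟨e, h2⟩, h1, ?_⟩
        intro D hD1 hD2 hD3
        by_contra h6
        exact h5 ⟨D, hD1, hD2, hD3, h6⟩
      obtain ⟨D, hD1, hD2, hD3, hD4⟩ := h4
      have hlt : D.card < X.card := card_lt_card (lt_of_le_of_ne hD1 hD4)
      by_cases h5 : e ∈ D
      · obtain ⟨C, hC1, hC2, hC3⟩ := ih D.card (by omega) D rfl hD3 h5
        exact ⟨C, hC1.trans hD1, hC2, hC3⟩
      · have h6 : IsEvenSet s t (X \ D) := by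
          intro v
          have h7 : ∑ e ∈ X \ D, ends s t e v + ∑ e ∈ D, ends s t e v = ∑ e ∈ X, ends s t e v := sum_sdiff hD1
          obtain ⟨a, ha⟩ := h1 v
          obtain ⟨b, hb⟩ := hD3 v
          exact ⟨a - b, by omega⟩
        have h7 : (X \ D).card < X.card := by
          apply card_lt_card
          refine lt_of_le_of_ne sdiff_subset ?_
          intro h8
          obtain ⟨d, hd⟩ := hD2
          have h9 := hD1 hd
          rw [← h8, mem_sdiff] at h9
          exact h9.2 hd
        obtain ⟨C, hC1, hC2, hC3⟩ := ih (X \ D).card (by omega) (X \ D) rfl h6 (mem_sdiff.2 ⟨h2, h5⟩)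
        exact ⟨C, hC1.trans sdiff_subset, hC2, hC3⟩

open Classical in
/-- The indicator of the circuits in `F`. -/
noncomputable def icf (s t : E → V) (F C : Finset E) : ℕ := if IsCircuit s t C ∧ C ⊆ F then 1 else 0

lemma icf_sum (s t : E → V) (F : Finset E) (hF : ∀ v, ∑ e ∈ F, ends s t e v = 2) (e : E) :
    ∑ C ∈ univ.filter (fun C : Finset E => e ∈ C), icf s t F C = if e ∈ F then 1 else 0 := by
  by_cases he : e ∈ F
  · have hFe : IsEvenSet s t F := by
      intro v
      rw [hF v]
      exact even_two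
    obtain ⟨C, hC1, hC2, hC3⟩ := circ_exists s t e F.card F rfl hFe he
    rw [if_pos he, sum_eq_single C]
    · unfold icf
      rw [if_pos ⟨hC2, hC1⟩]
    · intro D hD hDC
      unfold icf
      rw [if_neg]
      rintro ⟨h1, h2⟩
      apply hDC
      rw [mem_filter] at hD
      exact circ_uniq s t F D C hF h2 hC1 h1 hC2 e hD.2 hC3
    · intro h
      exact absurd (show C ∈ univ.filter (fun C : Finset E => e ∈ C) from mem_filter.2 ⟨mem_univ _, hC3⟩) h
  · rw [if_neg he]
    apply sum_eq_zero
    intro C hC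
    rw [mem_filter] at hC
    unfold icf
    rw [if_neg]
    rintro ⟨_, h2⟩
    exact he (h2 hC.2)

theorem cdc_iff {s t : E → V} {p : E → ℕ} (h : Cubic12 s t p) :
    InIntCone s t p ↔ ExtendsCDC s t (univ.filter (fun e => p e = 1)) := by
  have hF := deg_two h
  have hp : ∀ e, p e + (if e ∈ univ.filter (fun e => p e = 1) then 1 else 0) = 2 := by
    intro e
    rcases h.1 e with h1 | h1
    · have h2 : e ∈ univ.filter (fun e => p e = 1) := mem_filter.2 ⟨mem_univ _, h1⟩
      rw [if_pos h2, h1]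
    · rw [if_neg, h1]
      rw [mem_filter, h1]
      rintro ⟨_, h2⟩
      exact absurd h2 (by norm_num)
  constructor
  · rintro ⟨lam, h1, h2⟩
    refine ⟨fun C => lam C + icf s t (univ.filter (fun e => p e = 1)) C, ?_, ?_, ?_⟩
    · intro C hC
      by_cases h3 : lam C = 0
      · have h4 : icf s t (univ.filter (fun e => p e = 1)) C ≠ 0 := by
          intro h5
          exact hC (by beta_reduce; rw [h3, h5])
        unfold icf at h4
        by_contra h5
        exact h4 (if_neg (fun h6 => h5 h6.1))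
      · exact h1 C h3
    · intro e
      rw [sum_add_distrib, ← h2 e, icf_sum s t _ hF e]
      exact hp e
    · intro C h3 h4 h5
      have h6 : icf s t (univ.filter (fun e => p e = 1)) C = 1 := by
        unfold icf
        exact if_pos ⟨h3, h4⟩
      have h7 : lam C + icf s t (univ.filter (fun e => p e = 1)) C = 0 := h5
      omega
  · rintro ⟨lam, h1, h2, h3⟩
    have h4 : ∀ C, icf s t (univ.filter (fun e => p e = 1)) C ≤ lam C := by
      intro C
      unfold icf
      split_ifs with h5
      · have := h3 C h5.1 h5.2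
        omega
      · exact Nat.zero_le _
    refine ⟨fun C => lam C - icf s t (univ.filter (fun e => p e = 1)) C, ?_, ?_⟩
    · intro C hC
      apply h1 C
      intro h5
      exact hC (by beta_reduce; rw [h5, Nat.zero_sub])
    · intro e
      have h5 : ∑ C ∈ univ.filter (fun C : Finset E => e ∈ C), (lam C - icf s t (univ.filter (fun e => p e = 1)) C)
          + ∑ C ∈ univ.filter (fun C : Finset E => e ∈ C), icf s t (univ.filter (fun e => p e = 1)) C
          = ∑ C ∈ univ.filter (fun C : Finset E => e ∈ C), lam C := by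
        rw [← sum_add_distrib]
        exact sum_congr rfl fun C _ => Nat.sub_add_cancel (h4 C)
      rw [h2 e, icf_sum s t _ hF e, ← hp e] at h5
      exact (add_right_cancel h5).symm

end cdc

section final

variable {V E : Type} [Fintype V] [DecidableEq V] [Fintype E] [DecidableEq E]

lemma pre_of (s t : E → V) (p : E → ℕ) (g : E → Gad) (hg : ∀ e, Good (g e) (p e)) (hs : ∀ e, Shape (g e))
    (hev : ∀ v, Even (∑ e, p e * ends s t e v)) : Pre (newS s t g) (newT s t g) (newP g) := by
  have key : ∀ x, (∃ h : Half (newS s t g) (newT s t g) x, newP g h.1.1 = 2) →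
      wbd (newS s t g) (newT s t g) (fun _ => (1 : ℕ)) x = 3 ∧ wbd (newS s t g) (newT s t g) (newP g) x = 4 := by
    rintro x ⟨⟨⟨y, b⟩, hx⟩, h2⟩
    have h3 : newS s t g y = x ∨ newT s t g y = x := by
      unfold endp at hx
      cases b
      · exact Or.inl (by simpa using hx)
      · exact Or.inr (by simpa using hx)
    exact (heavy_end s t g hs x y h2 h3).2
  refine ⟨fun y => weights g hs y, fun x hx => (key x hx).1, fun x hx => (key x hx).2, ?_⟩
  intro x
  rw [← ZMod.natCast_eq_zero_iff_even]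
  rcases x with v | z
  · rw [new_parity s t p g hg v, ZMod.natCast_eq_zero_iff_even]
    exact hev v
  · exact new_parity' s t p g hg z

lemma cone_even (s t : E → V) (p : E → ℕ) (h : InIntCone s t p) (v : V) : Even (∑ e, p e * ends s t e v) := by
  obtain ⟨lam, h1, h2⟩ := h
  have h3 : ∑ e, p e * ends s t e v = ∑ C : Finset E, lam C * ∑ e ∈ C, ends s t e v := by
    have h4 : ∀ e, p e * ends s t e v = ∑ C : Finset E, if e ∈ C then lam C * ends s t e v else 0 := by
      intro e
      rw [h2 e, sum_mul, sum_filter]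
    have h5 : ∀ C : Finset E, lam C * ∑ e ∈ C, ends s t e v = ∑ e, if e ∈ C then lam C * ends s t e v else 0 := by
      intro C
      rw [mul_sum, ← sum_filter]
      refine sum_congr ?_ fun _ _ => rfl
      ext e
      rw [mem_filter]
      exact ⟨fun h => ⟨mem_univ _, h⟩, fun h => h.2⟩
    rw [sum_congr rfl (fun e _ => h4 e), sum_congr rfl (fun C _ => h5 C), sum_comm]
  rw [h3]
  apply even_sum
  intro C _
  by_cases h6 : lam C = 0
  · rw [h6, zero_mul]
    exact Even.zero
  · exact ((h1 C h6).2.1 v).mul_left _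

end final

/-- The reduction to cubic graphs. -/
theorem cubic_reduction : ∃ H : ℕ → Gad, (∀ k, Fintype.card (H k).F ≤ 14 ^ k ∧ ∀ f, (H k).p f = 1 ∨ (H k).p f = 2) ∧
    ∀ G : WG, (G.InCone ↔ (G.edges H).InCone) ∧ (G.InCone → G.Parity) ∧
      (G.Parity → ∀ r : Num (G.edges H).s (G.edges H).t,
        Fintype.card ((G.edges H).verts r).V ≤ 32 * (∑ e, 14 ^ G.p e) ^ 2 ∧
        ((G.edges H).verts r).Cubic ∧ (G.InCone ↔ ((G.edges H).verts r).InCone) ∧
        (G.InCone ↔ ((G.edges H).verts r).Extends)) := by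
  choose g h1 h2 h3 using exists_gad2
  refine ⟨g, fun k => ⟨h3 k, (h2 k).1⟩, ?_⟩
  intro G
  have key : G.InCone ↔ (G.edges g).InCone := by
    show InIntCone G.s G.t G.p ↔ InIntCone (newS G.s G.t (fun e => g (G.p e))) (newT G.s G.t (fun e => g (G.p e)))
      (newP (fun e => g (G.p e)))
    rw [cone_iff, cone_iff]
    apply exists_congr
    intro n
    rw [replace G.s G.t G.p (fun e => g (G.p e)) (fun e => h1 (G.p e)) n (fun _ _ => 0)]
    have he : (fun (_ : Fin n) => Sum.elim (fun _ : G.V => (0 : ZMod 2)) (fun _ : (Σ e, (g (G.p e)).W) => (0 : ZMod 2)))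
        = fun _ _ => 0 := by
      funext i x
      rcases x with x | x <;> rfl
    rw [he]
  refine ⟨key, fun h => cone_even G.s G.t G.p h, ?_⟩
  intro hev r
  have hpre : Pre (G.edges g).s (G.edges g).t (G.edges g).p :=
    pre_of G.s G.t G.p (fun e => g (G.p e)) (fun e => h1 (G.p e)) (fun e => h2 (G.p e)) hev
  have hcub : ((G.edges g).verts r).Cubic := vr_cubic hpre r
  have hiff : G.InCone ↔ ((G.edges g).verts r).InCone := key.trans (vr_iff hpre r)
  refine ⟨?_, hcub, hiff, hiff.trans (cdc_iff hcub)⟩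
  have hc : Fintype.card (Σ e, (g (G.p e)).F) ≤ ∑ e, 14 ^ G.p e := by
    rw [Fintype.card_sigma]
    exact sum_le_sum fun e _ => h3 (G.p e)
  exact (vr_card r).trans (Nat.mul_le_mul_left _ (Nat.pow_le_pow_left hc 2))

end Pool.Agent.Helper59.CW
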