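import Pool.Agent.Helper59.CW.Pet

/-!
MP_1bf3cf_lc: composition of two-terminal graphs; an edge of weight `k` can be replaced by a two-terminal graph with
weights at most 2.
-/

set_option autoImplicit false
set_option linter.unusedSectionVars false
set_option linter.unusedSimpArgs false

namespace Pool.Agent.Helper59.CW

open Finset

/-- Every edge `f` of `P` is replaced by `g f`. -/
def comp (P : Gad) (g : P.F → Gad) : Gad where
  W := P.W ⊕ (Σ f, (g f).W)
  F := Σ f, (g f).F
  s := newS P.s P.t g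
  t := newT P.s P.t g
  a := Sum.inl P.a
  b := Sum.inl P.b
  ab := fun h => P.ab (Sum.inl.inj h)
  p := newP g

theorem comp_good (P : Gad) (g : P.F → Gad) (k : ℕ) (hP : Good P k) (hg : ∀ f, Good (g f) (P.p f)) :
    Good (comp P g) k := by
  intro n d hd
  have hd0 : ∀ i (x : Σ f, (g f).W), d i (Sum.inr x) = 0 := by
    intro i x
    exact hd i (Sum.inr x) (fun h => by cases h) (fun h => by cases h)
  have he : d = fun i => Sum.elim (fun w => d i (Sum.inl w)) (fun _ => 0) := by
    funext i x
    rcases x with x | x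
    · rfl
    · exact hd0 i x
  have h1 := replace P.s P.t P.p g hg n (fun i w => d i (Sum.inl w))
  have h2 := hP n (fun i w => d i (Sum.inl w)) (fun i w hwa hwb =>
    hd i (Sum.inl w) (fun h => hwa (Sum.inl.inj h)) (fun h => hwb (Sum.inl.inj h)))
  have h3 : Real (comp P g).s (comp P g).t (comp P g).p n d ↔
      Real (newS P.s P.t g) (newT P.s P.t g) (newP g) n (fun i => Sum.elim (fun w => d i (Sum.inl w)) (fun _ => 0)) := by
    rw [← he]
    exact Iff.rfl
  rw [h3, ← h1, h2]
  constructor
  · rintro ⟨S, hS, h4⟩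
    refine ⟨S, hS, ?_⟩
    intro i x
    rcases x with w | x
    · refine (h4 i w).trans ?_
      have e1 : ((comp P g).a = Sum.inl w) ↔ P.a = w := ⟨fun h => Sum.inl.inj h, fun h => congrArg Sum.inl h⟩
      have e2 : ((comp P g).b = Sum.inl w) ↔ P.b = w := ⟨fun h => Sum.inl.inj h, fun h => congrArg Sum.inl h⟩
      by_cases h5 : i ∈ S
      · rw [if_pos h5, if_pos h5]
        by_cases h6 : P.a = w
        · by_cases h7 : P.b = w
          · rw [if_pos h6, if_pos h7, if_pos (e1.2 h6), if_pos (e2.2 h7)]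
          · rw [if_pos h6, if_neg h7, if_pos (e1.2 h6), if_neg (fun h => h7 (e2.1 h))]
        · by_cases h7 : P.b = w
          · rw [if_neg h6, if_pos h7, if_neg (fun h => h6 (e1.1 h)), if_pos (e2.2 h7)]
          · rw [if_neg h6, if_neg h7, if_neg (fun h => h6 (e1.1 h)), if_neg (fun h => h7 (e2.1 h))]
      · rw [if_neg h5, if_neg h5]
    · rw [hd0 i x]
      have e1 : ¬ ((comp P g).a = Sum.inr x) := fun h => by cases h
      have e2 : ¬ ((comp P g).b = Sum.inr x) := fun h => by cases h
      rw [if_neg e1, if_neg e2, add_zero, ite_self]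
  · rintro ⟨S, hS, h4⟩
    refine ⟨S, hS, ?_⟩
    intro i w
    refine (h4 i (Sum.inl w)).trans ?_
    have e1 : ((comp P g).a = Sum.inl w) ↔ P.a = w := ⟨fun h => Sum.inl.inj h, fun h => congrArg Sum.inl h⟩
    have e2 : ((comp P g).b = Sum.inl w) ↔ P.b = w := ⟨fun h => Sum.inl.inj h, fun h => congrArg Sum.inl h⟩
    by_cases h5 : i ∈ S
    · rw [if_pos h5, if_pos h5]
      by_cases h6 : P.a = w
      · by_cases h7 : P.b = w
        · rw [if_pos h6, if_pos h7, if_pos (e1.2 h6), if_pos (e2.2 h7)]
        · rw [if_pos h6, if_neg h7, if_pos (e1.2 h6), if_neg (fun h => h7 (e2.1 h))]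
      · by_cases h7 : P.b = w
        · rw [if_neg h6, if_pos h7, if_neg (fun h => h6 (e1.1 h)), if_pos (e2.2 h7)]
        · rw [if_neg h6, if_neg h7, if_neg (fun h => h6 (e1.1 h)), if_neg (fun h => h7 (e2.1 h))]
    · rw [if_neg h5, if_neg h5]

lemma pW_lt (k : ℕ) (hk : 3 ≤ k) (f : Fin 14) : pW k f < k := by
  fin_cases f <;> simp [pW] <;> omega

theorem exists_gad (k : ℕ) : ∃ g : Gad, Good g k ∧ (∀ f, g.p f ≤ 2) ∧ Fintype.card g.F ≤ 14 ^ k := by
  induction k using Nat.strong_induction_on with
  | _ k ih =>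
    by_cases hk : k ≤ 2
    · refine ⟨single k, single_good k, fun _ => hk, ?_⟩
      show Fintype.card Unit ≤ 14 ^ k
      rw [Fintype.card_unit]
      exact Nat.one_le_pow _ _ (by norm_num)
    · push Not at hk
      have hk3 : 3 ≤ k := hk
      have h1 : ∀ f : Fin 14, ∃ g : Gad, Good g (pW k f) ∧ (∀ f, g.p f ≤ 2) ∧ Fintype.card g.F ≤ 14 ^ (pW k f) :=
        fun f => ih _ (pW_lt k hk3 f)
      choose g hg1 hg2 hg3 using h1
      refine ⟨comp (pet k) g, comp_good (pet k) g k (pet_good k hk3) hg1, ?_, ?_⟩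
      · rintro ⟨f, x⟩
        exact hg2 f x
      · have h2 : Fintype.card (comp (pet k) g).F = ∑ f : Fin 14, Fintype.card (g f).F :=
          Fintype.card_sigma
        rw [h2]
        have h3 : ∀ f ∈ (univ : Finset (Fin 14)), Fintype.card (g f).F ≤ 14 ^ (k - 1) := by
          intro f _
          refine (hg3 f).trans (Nat.pow_le_pow_right (by norm_num) ?_)
          have := pW_lt k hk3 f
          omega
        refine (sum_le_sum h3).trans ?_
        rw [sum_const, card_univ, Fintype.card_fin, smul_eq_mul, ← pow_succ']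
        exact Nat.pow_le_pow_right (by norm_num) (by omega)

/-- The reduction of the weights. -/
theorem reduction : ∃ g : ℕ → Gad, (∀ k, Fintype.card (g k).F ≤ 14 ^ k ∧ ∀ f, (g k).p f ≤ 2) ∧
    ∀ (V E : Type) [Fintype V] [DecidableEq V] [Fintype E] [DecidableEq E] (s t : E → V) (p : E → ℕ),
      InIntCone s t p ↔
        InIntCone (newS s t (fun e => g (p e))) (newT s t (fun e => g (p e))) (newP (fun e => g (p e))) := by
  choose g h1 h2 h3 using exists_gad
  refine ⟨g, fun k => ⟨h3 k, h2 k⟩, ?_⟩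
  intro V E _ _ _ _ s t p
  rw [cone_iff, cone_iff]
  apply exists_congr
  intro n
  rw [replace s t p (fun e => g (p e)) (fun e => h1 (p e)) n (fun _ _ => 0)]
  have he : (fun (_ : Fin n) => Sum.elim (fun _ : V => (0 : ZMod 2)) (fun _ : (Σ e, (g (p e)).W) => (0 : ZMod 2)))
      = fun _ _ => 0 := by
    funext i x
    rcases x with x | x <;> rfl
  rw [he]

end Pool.Agent.Helper59.CW
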