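import Pool.Agent.Helper59.CW.Grid3

/-!
MP_1bf3cf_lc: the reduction to cubic graphs.
-/

set_option autoImplicit false
set_option linter.unusedSectionVars false
set_option linter.unusedSimpArgs false

namespace Pool.Agent.Helper59.CW

open Finset

lemma pole_card (m : ℕ) : Fintype.card (pole m).W ≤ 8 * m ^ 2 := by
  cases m with
  | zero =>
    show Fintype.card Empty ≤ _
    rw [Fintype.card_empty]
    exact Nat.zero_le _
  | succ M =>
    show Fintype.card (gW M) ≤ _
    rw [Fintype.card_prod, Fintype.card_prod, Fintype.card_fin, Fintype.card_fin]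
    apply le_of_eq
    ring

lemma pole_wts (m : ℕ) (f : (pole m).F) : (pole m).p f = 1 ∨ (pole m).p f = 2 := by
  cases m with
  | zero => exact Empty.elim f
  | succ M =>
    revert f
    show ∀ f : gF M, gP M f = 1 ∨ gP M f = 2
    rintro (⟨i, j, (f | f)⟩ | x)
    · exact Or.inr rfl
    · exact Or.inl rfl
    · exact Or.inl rfl

lemma pole_one (m : ℕ) (hm : Even m) (w : (pole m).W) :
    wbd (pole m).s (pole m).t (fun _ => (1 : ℕ)) w + ∑ h, (if (pole m).o h = w then 1 else 0) = 3 := by
  cases m with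
  | zero => exact Empty.elim w
  | succ M => exact grid_one M hm w

lemma pole_wt (m : ℕ) (hm : Even m) (w : (pole m).W) :
    wbd (pole m).s (pole m).t (pole m).p w + ∑ h, (if (pole m).o h = w then 1 else 0) = 4 := by
  cases m with
  | zero => exact Empty.elim w
  | succ M => exact grid_wt M hm w

lemma pole_ext (m n : ℕ) (hn : 3 ≤ n) (hm : Even m) (c : Fin m → Fin n)
    (hc : ∀ x, Even (univ.filter (fun i => c i = x)).card) : (pole m).Ext n (fun h => {c h}) := by
  cases m with
  | zero => exact ⟨fun _ => ∅, fun f => Empty.elim f, fun _ w => Empty.elim w⟩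
  | succ M => exact grid_ext M n hn hm c hc

section main

variable {V E : Type} [Fintype V] [DecidableEq V] [Fintype E] [DecidableEq E]

/-- The hypotheses on the graph before the replacement of vertices. -/
structure Pre (s t : E → V) (p : E → ℕ) : Prop where
  wts : ∀ e, p e = 1 ∨ p e = 2
  one : ∀ v, (∃ h : Half s t v, p h.1.1 = 2) → wbd s t (fun _ => (1 : ℕ)) v = 3
  wt : ∀ v, (∃ h : Half s t v, p h.1.1 = 2) → wbd s t p v = 4
  par : ∀ v, Even (wbd s t p v)

lemma light_one {s t : E → V} {p : E → ℕ} (H : Pre s t p) (v : V) (hv : ¬ ∃ h : Half s t v, p h.1.1 = 2)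
    (h : Half s t v) : p h.1.1 = 1 := by
  rcases H.wts h.1.1 with h1 | h1
  · exact h1
  · exact absurd ⟨h, h1⟩ hv

lemma light_even {s t : E → V} {p : E → ℕ} (H : Pre s t p) (v : V) (hv : ¬ ∃ h : Half s t v, p h.1.1 = 2) :
    Even (Fintype.card (Half s t v)) := by
  have h1 := H.par v
  rw [wbd_half] at h1
  have h2 : ∑ h : Half s t v, p h.1.1 = Fintype.card (Half s t v) := by
    rw [sum_congr rfl (fun h _ => light_one H v hv h), sum_const, card_univ, smul_eq_mul, mul_one]
  rw [h2] at h1
  exact h1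

lemma vpole_cases {s t : E → V} {p : E → ℕ} (r : Num s t) (v : V) (Q : Pole (Half s t v) → Prop)
    (h1 : (∃ h : Half s t v, p h.1.1 = 2) → Q (triv (Half s t v)))
    (h2 : (¬ ∃ h : Half s t v, p h.1.1 = 2) → Q (relab (Fintype.card (Half s t v)) (r v))) : Q (vpole s t p r v) := by
  by_cases h : ∃ h : Half s t v, p h.1.1 = 2
  · have e : vpole s t p r v = triv (Half s t v) := if_pos h
    rw [e]
    exact h1 h
  · have e : vpole s t p r v = relab (Fintype.card (Half s t v)) (r v) := if_neg h
    rw [e]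
    exact h2 h

lemma vpole_wts {s t : E → V} {p : E → ℕ} (r : Num s t) (v : V) :
    ∀ f : (vpole s t p r v).F, (vpole s t p r v).p f = 1 ∨ (vpole s t p r v).p f = 2 := by
  apply vpole_cases r v (fun Q => ∀ f : Q.F, Q.p f = 1 ∨ Q.p f = 2)
  · exact fun _ f => Empty.elim f
  · exact fun _ f => pole_wts _ f

lemma vpole_one {s t : E → V} {p : E → ℕ} (H : Pre s t p) (r : Num s t) (v : V) : ∀ w : (vpole s t p r v).W,
    ∑ h, (if (vpole s t p r v).o h = w then 1 else 0)
      + wbd (vpole s t p r v).s (vpole s t p r v).t (fun _ => (1 : ℕ)) w = 3 := by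
  apply vpole_cases r v (fun Q => ∀ w : Q.W, ∑ h, (if Q.o h = w then 1 else 0) + wbd Q.s Q.t (fun _ => (1 : ℕ)) w = 3)
  · intro hv w
    have h1 := H.one v hv
    rw [wbd_half] at h1
    have h2 : wbd (triv (Half s t v)).s (triv (Half s t v)).t (fun _ => (1 : ℕ)) w = 0 :=
      sum_eq_zero fun e _ => Empty.elim e
    rw [h2, add_zero, ← h1]
    exact sum_congr rfl fun h _ => if_pos rfl
  · intro hv w
    have h1 := pole_one _ (light_even H v hv) w
    rw [add_comm] at h1
    refine Eq.trans ?_ h1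
    refine congrArg₂ _ ?_ rfl
    exact Equiv.sum_comp (r v) (fun k => if (pole (Fintype.card (Half s t v))).o k = w then 1 else 0)

lemma vpole_wt {s t : E → V} {p : E → ℕ} (H : Pre s t p) (r : Num s t) (v : V) : ∀ w : (vpole s t p r v).W,
    ∑ h : Half s t v, (if (vpole s t p r v).o h = w then p h.1.1 else 0)
      + wbd (vpole s t p r v).s (vpole s t p r v).t (vpole s t p r v).p w = 4 := by
  apply vpole_cases r v (fun Q => ∀ w : Q.W, ∑ h : Half s t v, (if Q.o h = w then p h.1.1 else 0) + wbd Q.s Q.t Q.p w = 4)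
  · intro hv w
    have h1 := H.wt v hv
    rw [wbd_half] at h1
    have h2 : wbd (triv (Half s t v)).s (triv (Half s t v)).t (triv (Half s t v)).p w = 0 :=
      sum_eq_zero fun e _ => Empty.elim e
    rw [h2, add_zero, ← h1]
    exact sum_congr rfl fun h _ => if_pos rfl
  · intro hv w
    have h1 := pole_wt _ (light_even H v hv) w
    rw [add_comm] at h1
    refine Eq.trans ?_ h1
    refine congrArg₂ _ ?_ rfl
    refine Eq.trans ?_ (Equiv.sum_comp (r v) (fun k => if (pole (Fintype.card (Half s t v))).o k = w then 1 else 0))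
    apply sum_congr rfl
    intro h _
    rw [light_one H v hv h]
    rfl

lemma vpole_ext {s t : E → V} {p : E → ℕ} (H : Pre s t p) (r : Num s t) (v : V) (n : ℕ) (hn : 3 ≤ n)
    (A : Fin n → Finset E) (h1 : ∀ e, (univ.filter (fun i => e ∈ A i)).card = p e) (h2 : ∀ i, bd s t (A i) v = 0) :
    (vpole s t p r v).Ext n (fun h => univ.filter (fun i => h.1.1 ∈ A i)) := by
  have hm : ∀ (i : Fin n) (h : Half s t v), i ∈ univ.filter (fun i => h.1.1 ∈ A i) ↔ h.1.1 ∈ A i := by
    intro i h
    rw [mem_filter]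
    exact ⟨fun h => h.2, fun h => ⟨mem_univ _, h⟩⟩
  have h3 : ∀ i, ∑ h : Half s t v, (if h.1.1 ∈ A i then (1 : ZMod 2) else 0) = 0 := by
    intro i
    have h4 := h2 i
    rw [bd_wbd, wbd_half] at h4
    exact h4
  apply vpole_cases r v (fun Q => Q.Ext n (fun h => univ.filter (fun i => h.1.1 ∈ A i)))
  · intro hv
    refine ⟨fun _ => ∅, fun f => Empty.elim f, ?_⟩
    intro i w
    have h0 : bd (triv (Half s t v)).s (triv (Half s t v)).t ∅ w = 0 := sum_eq_zero fun e _ => Empty.elim e
    rw [h0, zero_add]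
    refine Eq.trans ?_ (h3 i)
    apply sum_congr rfl
    intro h _
    by_cases h4 : h.1.1 ∈ A i
    · rw [if_pos ⟨rfl, (hm i h).2 h4⟩, if_pos h4]
    · rw [if_neg (fun h5 => h4 ((hm i h).1 h5.2)), if_neg h4]
  · intro hv
    have h4 : ∀ h : Half s t v, ∃ i, univ.filter (fun i => h.1.1 ∈ A i) = {i} := by
      intro h
      rw [← card_eq_one, h1]
      exact light_one H v hv h
    choose γ hγ using h4
    have h5 : ∀ x, Even (univ.filter (fun k => γ ((r v).symm k) = x)).card := by
      intro x
      have h6 : (univ.filter (fun k => γ ((r v).symm k) = x)).card = (univ.filter (fun h => γ h = x)).card := by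
        rw [card_filter, card_filter]
        exact Equiv.sum_comp (r v).symm (fun h => if γ h = x then 1 else 0)
      rw [h6, ← ZMod.natCast_eq_zero_iff_even, card_filter]
      push_cast
      refine Eq.trans ?_ (h3 x)
      apply sum_congr rfl
      intro h _
      have h7 : γ h = x ↔ h.1.1 ∈ A x := by
        rw [← hm x h, hγ h, mem_singleton]
        exact eq_comm
      simp only [h7]
    obtain ⟨B, h6, h7⟩ := pole_ext _ n hn (light_even H v hv) (fun k => γ ((r v).symm k)) h5
    refine ⟨B, h6, ?_⟩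
    intro i w
    refine Eq.trans ?_ (h7 i w)
    refine congrArg₂ _ rfl ?_
    refine Eq.trans ?_ (Equiv.sum_comp (r v) (fun k => if (pole (Fintype.card (Half s t v))).o k = w
      ∧ i ∈ ({γ ((r v).symm k)} : Finset (Fin n)) then (1 : ZMod 2) else 0))
    apply sum_congr rfl
    intro h _
    have h8 : (r v).symm ((r v) h) = h := (r v).symm_apply_apply h
    have h9 : i ∈ univ.filter (fun i => h.1.1 ∈ A i) ↔ i ∈ ({γ ((r v).symm ((r v) h))} : Finset (Fin n)) := by
      rw [h8, hγ h]
    by_cases h10 : (relab (Fintype.card (Half s t v)) (r v)).o h = w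
    · by_cases h11 : i ∈ univ.filter (fun i => h.1.1 ∈ A i)
      · rw [if_pos ⟨h10, h11⟩]
        exact (if_pos ⟨h10, h9.1 h11⟩).symm
      · rw [if_neg (fun h => h11 h.2)]
        exact (if_neg (fun h => h11 (h9.2 h.2))).symm
    · rw [if_neg (fun h => h10 h.1)]
      exact (if_neg (fun h => h10 h.1)).symm

lemma real_add (s t : E → V) (p : E → ℕ) (n : ℕ) (h : Real s t p n (fun _ _ => 0)) : Real s t p (n + 3) (fun _ _ => 0) := by
  obtain ⟨A, h1, h2⟩ := h
  refine ⟨Fin.append A (fun _ : Fin 3 => ∅), ?_, ?_⟩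
  · intro e
    rw [← h1 e, card_filter, card_filter, Fin.sum_univ_add]
    simp only [Fin.append_left, Fin.append_right, notMem_empty, if_false, sum_const_zero, add_zero]
  · intro i v
    refine Fin.addCases (fun j => ?_) (fun j => ?_) i
    · rw [Fin.append_left]
      exact h2 j v
    · rw [Fin.append_right]
      unfold bd
      exact sum_eq_zero fun e _ => if_neg (notMem_empty e)

/-- The replacement of vertices. -/
theorem vr_iff {s t : E → V} {p : E → ℕ} (H : Pre s t p) (r : Num s t) :
    InIntCone s t p ↔ InIntCone (vS s t (vpole s t p r)) (vT s t (vpole s t p r)) (vP s t p (vpole s t p r)) := by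
  rw [cone_iff, cone_iff]
  constructor
  · rintro ⟨n, h⟩
    obtain ⟨A, h1, h2⟩ := real_add s t p n h
    exact ⟨n + 3, vr_complete s t p (vpole s t p r) (n + 3) A h1
      (fun v => vpole_ext H r v (n + 3) (by omega) A h1 (fun i => h2 i v))⟩
  · rintro ⟨n, h⟩
    exact ⟨n, vr_sound s t p (vpole s t p r) n h⟩

lemma ends_wbd {V' E' : Type} [Fintype V'] [DecidableEq V'] [Fintype E'] [DecidableEq E'] (s t : E' → V') (v : V') :
    ∑ e, ends s t e v = wbd s t (fun _ => (1 : ℕ)) v := by
  unfold wbd ends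
  exact sum_congr rfl fun e _ => (one_mul _).symm

lemma cubic_of {V' E' : Type} [Fintype V'] [DecidableEq V'] [Fintype E'] [DecidableEq E'] (s t : E' → V') (p : E' → ℕ)
    (h0 : ∀ e, p e = 1 ∨ p e = 2) (h1 : ∀ v, wbd s t (fun _ => (1 : ℕ)) v = 3) (h2 : ∀ v, wbd s t p v = 4) :
    Cubic12 s t p := by
  refine ⟨h0, fun v => ⟨(ends_wbd s t v).trans (h1 v), ?_⟩⟩
  have h3 : wbd s t p v = wbd s t (fun _ => (1 : ℕ)) v + ∑ e ∈ univ.filter (fun e => p e = 2), ends s t e v := by
    rw [← ends_wbd, sum_filter, ← sum_add_distrib]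
    unfold wbd
    apply sum_congr rfl
    intro e _
    show p e * ends s t e v = _
    rcases h0 e with h4 | h4
    · rw [h4, if_neg (by norm_num), one_mul, add_zero]
    · rw [h4, if_pos rfl, two_mul]
  rw [h1, h2] at h3
  omega

theorem vr_cubic {s t : E → V} {p : E → ℕ} (H : Pre s t p) (r : Num s t) :
    Cubic12 (vS s t (vpole s t p r)) (vT s t (vpole s t p r)) (vP s t p (vpole s t p r)) := by
  apply cubic_of
  · rintro (e | ⟨v, f⟩)
    · exact H.wts e
    · exact vpole_wts r v f
  · rintro ⟨v, w⟩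
    rw [wbd_vr]
    exact vpole_one H r v w
  · rintro ⟨v, w⟩
    rw [wbd_vr]
    exact vpole_wt H r v w

lemma vpole_card {s t : E → V} {p : E → ℕ} (r : Num s t) (v : V) :
    Fintype.card (vpole s t p r v).W ≤ 8 * Fintype.card (Half s t v) ^ 2 := by
  apply vpole_cases r v (fun Q => Fintype.card Q.W ≤ 8 * Fintype.card (Half s t v) ^ 2)
  · rintro ⟨h, _⟩
    have h1 : 0 < Fintype.card (Half s t v) := Fintype.card_pos_iff.2 ⟨h⟩
    show Fintype.card Unit ≤ _
    rw [Fintype.card_unit]
    have h2 : 0 < Fintype.card (Half s t v) ^ 2 := by positivity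
    omega
  · exact fun _ => pole_card _

lemma sum_half (s t : E → V) : ∑ v, Fintype.card (Half s t v) = 2 * Fintype.card E := by
  have h1 : ∀ v, Fintype.card (Half s t v) = wbd s t (fun _ => (1 : ℕ)) v := by
    intro v
    rw [wbd_half, sum_const, card_univ, smul_eq_mul, mul_one]
  rw [sum_congr rfl (fun v _ => h1 v), wbd_total, sum_const, card_univ, smul_eq_mul]
  ring

theorem vr_card {s t : E → V} {p : E → ℕ} (r : Num s t) :
    Fintype.card (Σ v, (vpole s t p r v).W) ≤ 32 * Fintype.card E ^ 2 := by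
  rw [Fintype.card_sigma]
  calc ∑ v, Fintype.card (vpole s t p r v).W ≤ ∑ v, 8 * Fintype.card (Half s t v) ^ 2 :=
        sum_le_sum fun v _ => vpole_card r v
    _ = 8 * ∑ v, Fintype.card (Half s t v) ^ 2 := by rw [mul_sum]
    _ ≤ 8 * (∑ v, Fintype.card (Half s t v)) ^ 2 :=
        Nat.mul_le_mul_left _ (sum_sq_le_sq_sum_of_nonneg (fun _ _ => Nat.zero_le _))
    _ = 32 * Fintype.card E ^ 2 := by rw [sum_half]; ring

end main

end Pool.Agent.Helper59.CW
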