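import Pool.Agent.Helper59.CW.Defs

/-!
MP_1bf3cf_lc: definitions. Graphs with weights to which ends of edges are attached, the grids `grid M`, and the replacement of
every vertex of a graph which is not an end of an edge of weight 2 by such a grid.
-/

set_option autoImplicit false

namespace Pool.Agent.Helper59.CW

open Finset

/-- A finite graph with vertices `W`, edges `F` with the ends `s f`, `t f` and the weights `p f`, and vertices `o h` to which
ends of other edges, indexed by `h : O`, are to be attached. -/
structure Pole (O : Type) : Type 1 where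
  /-- vertices -/
  W : Type
  /-- edges -/
  F : Type
  [fW : Fintype W]
  [dW : DecidableEq W]
  [fF : Fintype F]
  [dF : DecidableEq F]
  /-- first end -/
  s : F → W
  /-- second end -/
  t : F → W
  /-- weights -/
  p : F → ℕ
  /-- the vertices at which the ends are attached -/
  o : O → W

attribute [instance] Pole.fW Pole.dW Pole.fF Pole.dF

/-! ## The grid -/

/-- Edges of the cell: four edges of weight 2 and six edges of weight 1. -/
abbrev E4 := Fin 4 ⊕ Fin 6

/-- First ends; the cell has the vertices `0, …, 7`. -/
def f4S : E4 → Fin 8 := Sum.elim ![0, 2, 4, 6] ![0, 1, 2, 3, 4, 5]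

/-- Second ends. -/
def f4T : E4 → Fin 8 := Sum.elim ![1, 3, 5, 7] ![4, 6, 5, 7, 7, 6]

/-- Weights. -/
def f4P : E4 → ℕ := Sum.elim (fun _ => 2) (fun _ => 1)

/-- Vertices of the grid: the triple i, j, w is the vertex w of the cell in row i and column j. -/
abbrev gW (M : ℕ) := Fin (M + 1) × Fin (M + 1) × Fin 8

/-- Edges of the grid: the edges of the cells, the horizontal edges, the edges at the right end, the vertical edges. -/
abbrev gF (M : ℕ) := (Fin (M + 1) × Fin (M + 1) × E4) ⊕ ((Fin (M + 1) × Fin M) ⊕ (Fin ((M + 1) / 2) ⊕
  (Fin (M + 1) × Fin (M + 1))))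

/-- The row `2 k`. -/
def ev (M : ℕ) (k : Fin ((M + 1) / 2)) : Fin (M + 1) := ⟨2 * k.1, by have := k.2; omega⟩

/-- The row `2 k + 1`. -/
def od (M : ℕ) (k : Fin ((M + 1) / 2)) : Fin (M + 1) := ⟨2 * k.1 + 1, by have := k.2; omega⟩

/-- First ends. -/
def gS (M : ℕ) : gF M → gW M :=
  Sum.elim (fun x => (x.1, x.2.1, f4S x.2.2)) (Sum.elim (fun x => (x.1, Fin.castSucc x.2, 1))
    (Sum.elim (fun k => (ev M k, Fin.last M, 1)) (fun x => (x.1, x.2, 3))))

/-- Second ends. -/
def gT (M : ℕ) : gF M → gW M :=
  Sum.elim (fun x => (x.1, x.2.1, f4T x.2.2)) (Sum.elim (fun x => (x.1, Fin.succ x.2, 0))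
    (Sum.elim (fun k => (od M k, Fin.last M, 1)) (fun x => (x.1 + 1, x.2, 2))))

/-- Weights. -/
def gP (M : ℕ) : gF M → ℕ :=
  Sum.elim (fun x => f4P x.2.2) (fun _ => 1)

/-- The grid with M + 1 rows and M + 1 columns of cells; the i-th end is attached at the left side of row i. -/
def grid (M : ℕ) : Pole (Fin (M + 1)) where
  W := gW M
  F := gF M
  s := gS M
  t := gT M
  p := gP M
  o := fun i => (i, 0, 0)

/-- The graph without vertices. -/
def emp : Pole (Fin 0) where
  W := Empty
  F := Empty
  s := Empty.elim
  t := Empty.elim
  p := fun _ => 0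
  o := fun h => h.elim0

/-- The graph which replaces a vertex with `m` ends of edges of weight 1. -/
def pole : ∀ m : ℕ, Pole (Fin m)
  | 0 => emp
  | M + 1 => grid M

/-! ## The replacement -/

section vr

variable {V E : Type} [DecidableEq V]

/-- The vertex at the end `x` of an edge: the pair e, false is the first end of `e`, and the pair e, true is the second end. -/
def endp (s t : E → V) (x : E × Bool) : V := if x.2 then t x.1 else s x.1

/-- The ends of edges at `v`. -/
abbrev Half (s t : E → V) (v : V) := {x : E × Bool // endp s t x = v}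

/-- The place of the end `x` when every vertex `v` is replaced by `P v`. -/
def att (s t : E → V) (P : ∀ v, Pole (Half s t v)) (x : E × Bool) : Σ v, (P v).W :=
  ⟨endp s t x, (P (endp s t x)).o ⟨x, rfl⟩⟩

/-- First ends after the replacement of every vertex `v` by `P v`; the edges are the old edges and the edges of the `P v`. -/
def vS (s t : E → V) (P : ∀ v, Pole (Half s t v)) : E ⊕ (Σ v, (P v).F) → Σ v, (P v).W
  | Sum.inl e => att s t P (e, false)
  | Sum.inr x => ⟨x.1, (P x.1).s x.2⟩

/-- Second ends after the replacement. -/
def vT (s t : E → V) (P : ∀ v, Pole (Half s t v)) : E ⊕ (Σ v, (P v).F) → Σ v, (P v).W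
  | Sum.inl e => att s t P (e, true)
  | Sum.inr x => ⟨x.1, (P x.1).t x.2⟩

/-- The weights after the replacement. -/
def vP (s t : E → V) (p : E → ℕ) (P : ∀ v, Pole (Half s t v)) : E ⊕ (Σ v, (P v).F) → ℕ
  | Sum.inl e => p e
  | Sum.inr x => (P x.1).p x.2

variable [Fintype E] [DecidableEq E]

/-- A numbering of the ends of edges at every vertex. -/
abbrev Num (s t : E → V) := ∀ v, Half s t v ≃ Fin (Fintype.card (Half s t v))

/-- A single vertex, to which all ends are attached. -/
def triv (O : Type) : Pole O where
  W := Unit
  F := Empty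
  s := fun _ => ()
  t := fun _ => ()
  p := fun _ => 0
  o := fun _ => ()

/-- The graph `pole m`, with the ends numbered by `r`. -/
def relab {O : Type} (m : ℕ) (r : O → Fin m) : Pole O where
  W := (pole m).W
  F := (pole m).F
  s := (pole m).s
  t := (pole m).t
  p := (pole m).p
  o := fun h => (pole m).o (r h)

/-- The graph which replaces the vertex `v`: if `v` is an end of an edge of weight 2, then a single vertex (so nothing
changes), otherwise `pole m`, where `m` is the number of ends of edges at `v`; these ends are numbered by `r v`. -/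
def vpole (s t : E → V) (p : E → ℕ) (r : Num s t) (v : V) : Pole (Half s t v) :=
  if ∃ h : Half s t v, p h.1.1 = 2 then triv (Half s t v) else relab (Fintype.card (Half s t v)) (r v)

end vr

/-! ## Cubic graphs -/

section cub

variable {V E : Type} [Fintype V] [DecidableEq V] [Fintype E] [DecidableEq E]

/-- A cubic graph with weights 1 and 2 in which the edges of weight 2 form a perfect matching. -/
def Cubic12 (s t : E → V) (p : E → ℕ) : Prop := (∀ e, p e = 1 ∨ p e = 2) ∧
  ∀ v, ∑ e, ends s t e v = 3 ∧ ∑ e ∈ univ.filter (fun e => p e = 2), ends s t e v = 1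

/-- A circuit double cover of the graph (circuits with multiplicities `lam`) which contains all circuits that consist of
edges of `F`. -/
def ExtendsCDC (s t : E → V) (F : Finset E) : Prop :=
  ∃ lam : Finset E → ℕ, (∀ C, lam C ≠ 0 → IsCircuit s t C) ∧
    (∀ e, ∑ C ∈ univ.filter (fun C : Finset E => e ∈ C), lam C = 2) ∧
    ∀ C, IsCircuit s t C → C ⊆ F → lam C ≠ 0

end cub

/-! ## Graphs with weights -/

/-- A finite graph (loops and parallel edges are allowed) with weights: vertices `V`, edges `E`, the edge `e` has the ends
`s e`, `t e` and the weight `p e`. -/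
structure WG : Type 1 where
  /-- vertices -/
  V : Type
  /-- edges -/
  E : Type
  [fV : Fintype V]
  [dV : DecidableEq V]
  [fE : Fintype E]
  [dE : DecidableEq E]
  /-- first end -/
  s : E → V
  /-- second end -/
  t : E → V
  /-- weights -/
  p : E → ℕ

attribute [instance] WG.fV WG.dV WG.fE WG.dE

/-- The weights are in the integer cone of the circuits. -/
def WG.InCone (G : WG) : Prop := InIntCone G.s G.t G.p

/-- The total weight of the edges at every vertex is even (a loop counts twice). -/
def WG.Parity (G : WG) : Prop := ∀ v, Even (∑ e, G.p e * ends G.s G.t e v)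

/-- The graph is cubic, the weights are 1 and 2, and the edges of weight 2 form a perfect matching. -/
def WG.Cubic (G : WG) : Prop := Cubic12 G.s G.t G.p

/-- There is a circuit double cover which contains all circuits that consist of edges of weight 1. -/
def WG.Extends (G : WG) : Prop := ExtendsCDC G.s G.t (univ.filter (fun e => G.p e = 1))

/-- Every edge `e` is replaced by the two-terminal graph `H (p e)`. -/
def WG.edges (G : WG) (H : ℕ → Gad) : WG where
  V := G.V ⊕ (Σ e, (H (G.p e)).W)
  E := Σ e, (H (G.p e)).F
  s := newS G.s G.t (fun e => H (G.p e))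
  t := newT G.s G.t (fun e => H (G.p e))
  p := newP (fun e => H (G.p e))

/-- Every vertex which is not an end of an edge of weight 2 is replaced by the grid `pole m`, `m` the number of ends of edges
at the vertex; these ends are numbered by `r`. -/
def WG.verts (G : WG) (r : Num G.s G.t) : WG where
  V := Σ v, (vpole G.s G.t G.p r v).W
  E := G.E ⊕ (Σ v, (vpole G.s G.t G.p r v).F)
  s := vS G.s G.t (vpole G.s G.t G.p r)
  t := vT G.s G.t (vpole G.s G.t G.p r)
  p := vP G.s G.t G.p (vpole G.s G.t G.p r)

end Pool.Agent.Helper59.CW
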