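import Pool.Agent.Helper59.CW.Hk

/-!
MP_1bf3cf_lc: a cubic graph with weights 1 and 2 which behaves like a vertex all of whose edges have weight 1.
-/

set_option autoImplicit false
set_option linter.unusedSectionVars false
set_option linter.unusedSimpArgs false

namespace Pool.Agent.Helper59.CW

open Finset

lemma f4_sum {R : Type} [CommSemiring R] (G : E4 → R) :
    wbd f4S f4T G 0 = G (Sum.inl 0) + G (Sum.inr 0) ∧
    wbd f4S f4T G 1 = G (Sum.inl 0) + G (Sum.inr 1) ∧
    wbd f4S f4T G 2 = G (Sum.inl 1) + G (Sum.inr 2) ∧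
    wbd f4S f4T G 3 = G (Sum.inl 1) + G (Sum.inr 3) ∧
    wbd f4S f4T G 4 = G (Sum.inl 2) + (G (Sum.inr 0) + G (Sum.inr 4)) ∧
    wbd f4S f4T G 5 = G (Sum.inl 2) + (G (Sum.inr 2) + G (Sum.inr 5)) ∧
    wbd f4S f4T G 6 = G (Sum.inl 3) + (G (Sum.inr 1) + G (Sum.inr 5)) ∧
    wbd f4S f4T G 7 = G (Sum.inl 3) + (G (Sum.inr 3) + G (Sum.inr 4)) := by
  unfold wbd
  simp only [Fintype.sum_sum_type, Fin.sum_univ_four, Fin.sum_univ_six]
  refine ⟨?_, ?_, ?_, ?_, ?_, ?_, ?_, ?_⟩ <;> simp [f4S, f4T]

lemma pr_ind {n : ℕ} (a u i : Fin n) (h : a ≠ u) :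
    (if i ∈ ({a, u} : Finset (Fin n)) then (1 : ZMod 2) else 0) = (if i = a then 1 else 0) + (if i = u then 1 else 0) := by
  by_cases h1 : i = a
  · have h2 : i ≠ u := fun h3 => h (h1.symm.trans h3)
    simp [h1, h]
  · by_cases h2 : i = u
    · simp [h2, Ne.symm h]
    · simp [h1, h2]

lemma sg_ind {n : ℕ} (a i : Fin n) : (if i ∈ ({a} : Finset (Fin n)) then (1 : ZMod 2) else 0) = if i = a then 1 else 0 := by
  simp only [mem_singleton]

/-- The external contribution at the vertex `w`. -/
def ex {R : Type} [CommSemiring R] (g0 g1 g2 g3 : R) : Fin 8 → R := ![g0, g1, g2, g3, 0, 0, 0, 0]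

/-- The colour classes. -/
def tf {n : ℕ} (a c u v x y z w : Fin n) : E4 → Finset (Fin n) :=
  Sum.elim ![{a, u}, {c, x}, {u, z}, {v, w}] ![{u}, {v}, {x}, {y}, {z}, {w}]

lemma tf_card {n : ℕ} (a c u v x y z w : Fin n) (h1 : a ≠ u) (h2 : c ≠ x) (h3 : u ≠ z) (h4 : v ≠ w) (f : E4) :
    (tf a c u v x y z w f).card = f4P f := by
  rcases f with f | f
  · fin_cases f
    · exact card_pair h1
    · exact card_pair h2
    · exact card_pair h3
    · exact card_pair h4
  · fin_cases f
    · exact card_singleton _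
    · exact card_singleton _
    · exact card_singleton _
    · exact card_singleton _
    · exact card_singleton _
    · exact card_singleton _

lemma z2self (x : ZMod 2) : x + x = 0 := by
  revert x
  decide

lemma z2c (p q : ZMod 2) : p + q + q + p = 0 := by
  revert p q
  decide

/-- the boundaries of the colour classes -/
lemma tf_bd {n : ℕ} (a b c d u v x y z w : Fin n) (h1 : a ≠ u) (h2 : c ≠ x) (h3 : u ≠ z) (h4 : v ≠ w) (i : Fin n)
    (e1 : (if i = a then (1 : ZMod 2) else 0) + (if i = u then 1 else 0) = (if i = b then 1 else 0) + (if i = v then 1 else 0))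
    (e2 : (if i = c then (1 : ZMod 2) else 0) + (if i = x then 1 else 0) = (if i = d then 1 else 0) + (if i = y then 1 else 0))
    (e3 : (if i = u then (1 : ZMod 2) else 0) + (if i = z then 1 else 0) = (if i = x then 1 else 0) + (if i = w then 1 else 0))
    (e4 : (if i = v then (1 : ZMod 2) else 0) + (if i = w then 1 else 0) = (if i = y then 1 else 0) + (if i = z then 1 else 0))
    (k : Fin 8) :
    wbd f4S f4T (fun f => if i ∈ tf a c u v x y z w f then (1 : ZMod 2) else 0) k
      + ex (if i = a then (1 : ZMod 2) else 0) (if i = b then 1 else 0) (if i = c then 1 else 0) (if i = d then 1 else 0) k = 0 := by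
  obtain ⟨s0, s1, s2, s3, s4, s5, s6, s7⟩ := f4_sum (fun f => if i ∈ tf a c u v x y z w f then (1 : ZMod 2) else 0)
  have t0 : (if i ∈ tf a c u v x y z w (Sum.inl 0) then (1 : ZMod 2) else 0) = (if i = a then 1 else 0) + (if i = u then 1 else 0) :=
    pr_ind a u i h1
  have t1 : (if i ∈ tf a c u v x y z w (Sum.inl 1) then (1 : ZMod 2) else 0) = (if i = c then 1 else 0) + (if i = x then 1 else 0) :=
    pr_ind c x i h2
  have t2 : (if i ∈ tf a c u v x y z w (Sum.inl 2) then (1 : ZMod 2) else 0) = (if i = u then 1 else 0) + (if i = z then 1 else 0) :=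
    pr_ind u z i h3
  have t3 : (if i ∈ tf a c u v x y z w (Sum.inl 3) then (1 : ZMod 2) else 0) = (if i = v then 1 else 0) + (if i = w then 1 else 0) :=
    pr_ind v w i h4
  have r0 : (if i ∈ tf a c u v x y z w (Sum.inr 0) then (1 : ZMod 2) else 0) = (if i = u then 1 else 0) := sg_ind u i
  have r1 : (if i ∈ tf a c u v x y z w (Sum.inr 1) then (1 : ZMod 2) else 0) = (if i = v then 1 else 0) := sg_ind v i
  have r2 : (if i ∈ tf a c u v x y z w (Sum.inr 2) then (1 : ZMod 2) else 0) = (if i = x then 1 else 0) := sg_ind x i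
  have r3 : (if i ∈ tf a c u v x y z w (Sum.inr 3) then (1 : ZMod 2) else 0) = (if i = y then 1 else 0) := sg_ind y i
  have r4 : (if i ∈ tf a c u v x y z w (Sum.inr 4) then (1 : ZMod 2) else 0) = (if i = z then 1 else 0) := sg_ind z i
  have r5 : (if i ∈ tf a c u v x y z w (Sum.inr 5) then (1 : ZMod 2) else 0) = (if i = w then 1 else 0) := sg_ind w i
  rw [t0, r0] at s0
  rw [t0, r1] at s1
  rw [t1, r2] at s2
  rw [t1, r3] at s3
  rw [t2, r0, r4] at s4
  rw [t2, r2, r5] at s5
  rw [t3, r1, r5] at s6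
  rw [t3, r3, r4] at s7
  generalize (if i = a then (1 : ZMod 2) else 0) = ia at *
  generalize (if i = b then (1 : ZMod 2) else 0) = ib at *
  generalize (if i = c then (1 : ZMod 2) else 0) = ic at *
  generalize (if i = d then (1 : ZMod 2) else 0) = id' at *
  generalize (if i = u then (1 : ZMod 2) else 0) = iu at *
  generalize (if i = v then (1 : ZMod 2) else 0) = iv at *
  generalize (if i = x then (1 : ZMod 2) else 0) = ix at *
  generalize (if i = y then (1 : ZMod 2) else 0) = iy at *
  generalize (if i = z then (1 : ZMod 2) else 0) = iz at *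
  generalize (if i = w then (1 : ZMod 2) else 0) = iw at *
  fin_cases k
  · exact (congrArg (· + ia) s0).trans (z2c ia iu)
  · refine (congrArg (· + ib) s1).trans ?_
    rw [e1]
    exact z2c ib iv
  · exact (congrArg (· + ic) s2).trans (z2c ic ix)
  · refine (congrArg (· + id') s3).trans ?_
    rw [e2]
    exact z2c id' iy
  · refine (congrArg (· + 0) s4).trans ?_
    rw [z2self, add_zero]
  · refine (congrArg (· + 0) s5).trans ?_
    rw [e3, z2self, add_zero]
  · refine (congrArg (· + 0) s6).trans ?_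
    rw [z2self, add_zero]
  · refine (congrArg (· + 0) s7).trans ?_
    rw [e4, z2self, add_zero]

lemma third {n : ℕ} (hn : 3 ≤ n) (a c : Fin n) : ∃ p : Fin n, p ≠ a ∧ p ≠ c := by
  have h1 : ({a, c} : Finset (Fin n)).card < (univ : Finset (Fin n)).card := by
    rw [card_univ, Fintype.card_fin]
    exact lt_of_le_of_lt card_le_two (by omega)
  obtain ⟨p, _, hp⟩ := exists_mem_notMem_of_card_lt_card h1
  rw [mem_insert, mem_singleton, not_or] at hp
  exact ⟨p, hp⟩

/-- The small graph accepts the colours `a, b, c, d` if they are equal in pairs. -/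
theorem f4_ext {n : ℕ} (hn : 3 ≤ n) (a b c d : Fin n) (h : (a = b ∧ c = d) ∨ (a = c ∧ b = d) ∨ (a = d ∧ b = c)) :
    ∃ T : E4 → Finset (Fin n), (∀ f, (T f).card = f4P f) ∧ ∀ i k,
      wbd f4S f4T (fun f => if i ∈ T f then (1 : ZMod 2) else 0) k
      + ex (if i = a then (1 : ZMod 2) else 0) (if i = b then 1 else 0) (if i = c then 1 else 0) (if i = d then 1 else 0) k = 0 := by
  by_cases hab : a = b
  · have hcd : c = d := by
      rcases h with h | h | h
      · exact h.2
      · exact h.1.symm.trans (hab.trans h.2)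
      · exact h.2.symm.trans (hab.symm.trans h.1)
    subst hab hcd
    obtain ⟨p, hpa, hpc⟩ := third hn a c
    refine ⟨tf a c p p p p a a, tf_card a c p p p p a a hpa.symm hpc.symm hpa hpa, ?_⟩
    intro i k
    exact tf_bd a a c c p p p p a a hpa.symm hpc.symm hpa hpa i rfl rfl rfl rfl k
  · rcases h with h | h | h
    · exact absurd h.1 hab
    · obtain ⟨h1, h2⟩ := h
      subst h1 h2
      obtain ⟨p, hpa, hpb⟩ := third hn a b
      -- u = x = b, v = y = a, z = w = p
      refine ⟨tf a a b a b a p p, tf_card a a b a b a p p hab hab hpb.symm hpa.symm, ?_⟩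
      intro i k
      exact tf_bd a b a b b a b a p p hab hab hpb.symm hpa.symm i (add_comm _ _) (add_comm _ _) rfl rfl k
    · obtain ⟨h1, h2⟩ := h
      subst h1 h2
      -- u = b, v = a, x = a, y = b, z = a, w = b; c = b, d = a
      refine ⟨tf a b b a a b a b, tf_card a b b a a b a b hab (Ne.symm hab) (Ne.symm hab) hab, ?_⟩
      intro i k
      exact tf_bd a b b a b a a b a b hab (Ne.symm hab) (Ne.symm hab) hab i (add_comm _ _) (add_comm _ _)
        (add_comm _ _) (add_comm _ _) k

end Pool.Agent.Helper59.CW
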