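import Pool.Agent.Helper59.CW.Grid

/-!
MP_1bf3cf_lc: the grid.
-/

set_option autoImplicit false
set_option linter.unusedSectionVars false
set_option linter.unusedSimpArgs false

namespace Pool.Agent.Helper59.CW

open Finset

section sums

variable {R : Type} [CommSemiring R] (M : ℕ)

lemma part_int (G : Fin (M + 1) × Fin (M + 1) × E4 → R) (i0 j0 : Fin (M + 1)) (w : Fin 8) :
    ∑ x, G x * ((if ((x.1, x.2.1, f4S x.2.2) : gW M) = (i0, j0, w) then 1 else 0)
      + (if ((x.1, x.2.1, f4T x.2.2) : gW M) = (i0, j0, w) then 1 else 0))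
      = wbd f4S f4T (fun f => G (i0, j0, f)) w := by
  rw [Fintype.sum_prod_type, Fintype.sum_eq_single i0, Fintype.sum_prod_type, Fintype.sum_eq_single j0]
  · unfold wbd
    apply sum_congr rfl
    intro f _
    simp only [Prod.mk.injEq, true_and]
  · intro j hj
    apply sum_eq_zero
    intro f _
    simp only [Prod.mk.injEq, hj, false_and, and_false, if_false, add_zero, mul_zero]
  · intro i hi
    apply sum_eq_zero
    intro f _
    simp only [Prod.mk.injEq, hi, false_and, and_false, if_false, add_zero, mul_zero]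

lemma part_h (G : Fin (M + 1) × Fin M → R) (i0 j0 : Fin (M + 1)) (w : Fin 8) :
    ∑ x, G x * ((if ((x.1, Fin.castSucc x.2, 1) : gW M) = (i0, j0, w) then 1 else 0)
      + (if ((x.1, Fin.succ x.2, 0) : gW M) = (i0, j0, w) then 1 else 0))
      = (if 1 = w then ∑ j, (if Fin.castSucc j = j0 then G (i0, j) else 0) else 0)
        + (if 0 = w then ∑ j, (if Fin.succ j = j0 then G (i0, j) else 0) else 0) := by
  rw [Fintype.sum_prod_type, Fintype.sum_eq_single i0]
  · simp only [Prod.mk.injEq, true_and, mul_add]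
    rw [sum_add_distrib]
    refine congrArg₂ _ ?_ ?_
    · by_cases h : 1 = w
      · simp only [h, and_true, if_true, mul_ite, mul_one, mul_zero]
      · simp only [h, and_false, if_false, mul_zero, sum_const_zero]
    · by_cases h : 0 = w
      · simp only [h, and_true, if_true, mul_ite, mul_one, mul_zero]
      · simp only [h, and_false, if_false, mul_zero, sum_const_zero]
  · intro i hi
    apply sum_eq_zero
    intro f _
    simp only [Prod.mk.injEq, hi, false_and, and_false, if_false, add_zero, mul_zero]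

lemma part_c (G : Fin ((M + 1) / 2) → R) (i0 j0 : Fin (M + 1)) (w : Fin 8) :
    ∑ k, G k * ((if ((ev M k, Fin.last M, 1) : gW M) = (i0, j0, w) then 1 else 0)
      + (if ((od M k, Fin.last M, 1) : gW M) = (i0, j0, w) then 1 else 0))
      = if 1 = w then (if j0 = Fin.last M then ∑ k, G k * ((if ev M k = i0 then 1 else 0) + (if od M k = i0 then 1 else 0))
        else 0) else 0 := by
  by_cases h : 1 = w
  · by_cases h1 : j0 = Fin.last M
    · simp only [Prod.mk.injEq, h, h1, and_true, if_true]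
    · have h2 : ¬ Fin.last M = j0 := fun h3 => h1 h3.symm
      simp only [Prod.mk.injEq, h, h1, h2, and_true, and_false, false_and, if_true, if_false, add_zero, mul_zero,
        sum_const_zero]
  · simp only [Prod.mk.injEq, h, and_false, if_false, add_zero, mul_zero, sum_const_zero]

lemma part_v (G : Fin (M + 1) × Fin (M + 1) → R) (i0 j0 : Fin (M + 1)) (w : Fin 8) :
    ∑ x, G x * ((if ((x.1, x.2, 3) : gW M) = (i0, j0, w) then 1 else 0)
      + (if ((x.1 + 1, x.2, 2) : gW M) = (i0, j0, w) then 1 else 0))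
      = (if 3 = w then G (i0, j0) else 0) + (if 2 = w then G (i0 - 1, j0) else 0) := by
  simp only [mul_add]
  rw [sum_add_distrib]
  refine congrArg₂ _ ?_ ?_
  · rw [Fintype.sum_eq_single (i0, j0)]
    · simp only [Prod.mk.injEq, true_and, mul_ite, mul_one, mul_zero]
    · rintro ⟨i, j⟩ h
      rw [if_neg, mul_zero]
      intro h1
      apply h
      rw [Prod.mk.injEq, Prod.mk.injEq] at h1
      exact Prod.ext h1.1 h1.2.1
  · rw [Fintype.sum_eq_single (i0 - 1, j0)]
    · simp only [sub_add_cancel, Prod.mk.injEq, true_and, mul_ite, mul_one, mul_zero]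
    · rintro ⟨i, j⟩ h
      rw [if_neg, mul_zero]
      intro h1
      apply h
      rw [Prod.mk.injEq, Prod.mk.injEq] at h1
      exact Prod.ext (eq_sub_of_add_eq h1.1) h1.2.1

lemma grid_sum (G : gF M → R) (i0 j0 : Fin (M + 1)) (w : Fin 8) :
    wbd (gS M) (gT M) G (i0, j0, w) = wbd f4S f4T (fun f => G (Sum.inl (i0, j0, f))) w
      + (((if 1 = w then ∑ j, (if Fin.castSucc j = j0 then G (Sum.inr (Sum.inl (i0, j))) else 0) else 0)
        + (if 0 = w then ∑ j, (if Fin.succ j = j0 then G (Sum.inr (Sum.inl (i0, j))) else 0) else 0))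
      + ((if 1 = w then (if j0 = Fin.last M then ∑ k, G (Sum.inr (Sum.inr (Sum.inl k))) *
          ((if ev M k = i0 then 1 else 0) + (if od M k = i0 then 1 else 0)) else 0) else 0)
      + ((if 3 = w then G (Sum.inr (Sum.inr (Sum.inr (i0, j0)))) else 0)
        + (if 2 = w then G (Sum.inr (Sum.inr (Sum.inr (i0 - 1, j0)))) else 0)))) := by
  rw [← part_int M (fun x => G (Sum.inl x)) i0 j0 w, ← part_h M (fun x => G (Sum.inr (Sum.inl x))) i0 j0 w,
    ← part_c M (fun x => G (Sum.inr (Sum.inr (Sum.inl x)))) i0 j0 w,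
    ← part_v M (fun x => G (Sum.inr (Sum.inr (Sum.inr x)))) i0 j0 w]
  unfold wbd
  rw [Fintype.sum_sum_type, Fintype.sum_sum_type, Fintype.sum_sum_type]
  rfl

/-- the left ends -/
lemma sum_left (l : Fin (M + 1) → R) (j0 : Fin (M + 1)) :
    (∑ j : Fin M, if Fin.succ j = j0 then l (Fin.succ j) else 0) + (if j0 = 0 then l 0 else 0) = l j0 := by
  rcases Fin.eq_zero_or_eq_succ j0 with h | ⟨j1, h⟩
  · rw [if_pos h, h, sum_eq_zero, zero_add]
    intro j _
    rw [if_neg (Fin.succ_ne_zero j)]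
  · have h1 : j0 ≠ 0 := by rw [h]; exact Fin.succ_ne_zero j1
    rw [if_neg h1, add_zero, h, Fintype.sum_eq_single j1]
    · rw [if_pos rfl]
    · intro j hj
      rw [if_neg (fun h2 => hj (Fin.succ_injective _ h2))]

/-- the right ends -/
lemma sum_right (r : Fin (M + 1) → R) (j0 : Fin (M + 1)) :
    (∑ j : Fin M, if Fin.castSucc j = j0 then r (Fin.castSucc j) else 0) + (if j0 = Fin.last M then r (Fin.last M) else 0)
      = r j0 := by
  rcases Fin.eq_castSucc_or_eq_last j0 with ⟨j1, h⟩ | h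
  · have h1 : j0 ≠ Fin.last M := by rw [h]; exact Fin.castSucc_ne_last j1
    rw [if_neg h1, add_zero, h, Fintype.sum_eq_single j1]
    · rw [if_pos rfl]
    · intro j hj
      rw [if_neg (fun h2 => hj (Fin.castSucc_injective _ h2))]
  · rw [if_pos h, h, sum_eq_zero, zero_add]
    intro j _
    rw [if_neg (Fin.castSucc_ne_last j)]

/-- the edges at the right end -/
lemma sum_cap (hM : Even (M + 1)) (g : R) (i0 : Fin (M + 1)) :
    ∑ k, g * ((if ev M k = i0 then 1 else 0) + (if od M k = i0 then 1 else 0)) = g := by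
  obtain ⟨d, hd⟩ := hM
  have h2 := i0.2
  have hk : i0.1 / 2 < (M + 1) / 2 := by omega
  rw [Fintype.sum_eq_single ⟨i0.1 / 2, hk⟩]
  · rcases Nat.even_or_odd' i0.1 with ⟨c, hc | hc⟩
    · have h3 : ev M ⟨i0.1 / 2, hk⟩ = i0 := by
        apply Fin.ext
        show 2 * (i0.1 / 2) = i0.1
        omega
      have h4 : od M ⟨i0.1 / 2, hk⟩ ≠ i0 := by
        intro h5
        have h6 : 2 * (i0.1 / 2) + 1 = i0.1 := congrArg Fin.val h5
        omega
      rw [if_pos h3, if_neg h4, add_zero, mul_one]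
    · have h3 : od M ⟨i0.1 / 2, hk⟩ = i0 := by
        apply Fin.ext
        show 2 * (i0.1 / 2) + 1 = i0.1
        omega
      have h4 : ev M ⟨i0.1 / 2, hk⟩ ≠ i0 := by
        intro h5
        have h6 : 2 * (i0.1 / 2) = i0.1 := congrArg Fin.val h5
        omega
      rw [if_neg h4, if_pos h3, zero_add, mul_one]
  · intro k hk'
    have h3 : ev M k ≠ i0 := by
      intro h5
      apply hk'
      have h6 : 2 * k.1 = i0.1 := congrArg Fin.val h5
      apply Fin.ext
      show k.1 = i0.1 / 2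
      omega
    have h4 : od M k ≠ i0 := by
      intro h5
      apply hk'
      have h6 : 2 * k.1 + 1 = i0.1 := congrArg Fin.val h5
      apply Fin.ext
      show k.1 = i0.1 / 2
      omega
    rw [if_neg h3, if_neg h4, add_zero, mul_zero]

/-- The total contribution of the outer edges. -/
lemma grid_total (hM : Even (M + 1)) (G : gF M → R) (l r v : Fin (M + 1) → Fin (M + 1) → R) (x : R)
    (h1 : ∀ i j, G (Sum.inr (Sum.inl (i, j))) = l i (Fin.succ j))
    (h2 : ∀ i j, G (Sum.inr (Sum.inl (i, j))) = r i (Fin.castSucc j))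
    (h3 : ∀ k, G (Sum.inr (Sum.inr (Sum.inl k))) = x) (h4 : ∀ i, r i (Fin.last M) = x)
    (h5 : ∀ i j, G (Sum.inr (Sum.inr (Sum.inr (i, j)))) = v i j) (i0 j0 : Fin (M + 1)) (w : Fin 8) :
    wbd (gS M) (gT M) G (i0, j0, w) + (if 0 = w then (if j0 = 0 then l i0 0 else 0) else 0)
      = wbd f4S f4T (fun f => G (Sum.inl (i0, j0, f))) w + ex (l i0 j0) (r i0 j0) (v (i0 - 1) j0) (v i0 j0) w := by
  rw [grid_sum, add_assoc]
  refine congrArg₂ _ rfl ?_
  have e1 : ∑ j, (if Fin.castSucc j = j0 then G (Sum.inr (Sum.inl (i0, j))) else 0)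
      = ∑ j : Fin M, (if Fin.castSucc j = j0 then r i0 (Fin.castSucc j) else 0) :=
    sum_congr rfl fun j _ => by rw [h2]
  have e2 : ∑ j, (if Fin.succ j = j0 then G (Sum.inr (Sum.inl (i0, j))) else 0)
      = ∑ j : Fin M, (if Fin.succ j = j0 then l i0 (Fin.succ j) else 0) :=
    sum_congr rfl fun j _ => by rw [h1]
  have e3 : ∑ k, G (Sum.inr (Sum.inr (Sum.inl k))) * ((if ev M k = i0 then 1 else 0) + (if od M k = i0 then 1 else 0)) = x := by
    rw [← sum_cap M hM x i0]
    exact sum_congr rfl fun k _ => by rw [h3]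
  rw [e1, e2, e3, h5, h5, ← h4 i0]
  have s1 := sum_left M (l i0) j0
  have s2 := sum_right M (r i0) j0
  generalize (∑ j : Fin M, if Fin.succ j = j0 then l i0 (Fin.succ j) else 0) = A at *
  generalize (∑ j : Fin M, if Fin.castSucc j = j0 then r i0 (Fin.castSucc j) else 0) = B at *
  generalize (if j0 = Fin.last M then r i0 (Fin.last M) else 0) = C at *
  generalize (if j0 = 0 then l i0 0 else 0) = D at *
  rw [← s1, ← s2]
  fin_cases w <;> simp [ex]

end sums

lemma grid_out {R : Type} [CommSemiring R] (M : ℕ) (g : Fin (M + 1) → R) (i0 j0 : Fin (M + 1)) (w : Fin 8) :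
    ∑ h, (if (((h, 0, 0) : gW M) = (i0, j0, w)) then g h else 0) = (if 0 = w then (if j0 = 0 then g i0 else 0) else 0) := by
  rw [Fintype.sum_eq_single i0]
  · by_cases h1 : 0 = w
    · by_cases h2 : j0 = 0
      · simp only [Prod.mk.injEq, h1, h2, and_self, if_true]
      · have h3 : ¬ 0 = j0 := fun h => h2 h.symm
        simp only [Prod.mk.injEq, h1, h2, h3, and_false, false_and, if_true, if_false]
    · simp only [Prod.mk.injEq, h1, and_false, if_false]
  · intro i hi
    rw [if_neg]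
    intro h
    rw [Prod.mk.injEq] at h
    exact hi h.1

lemma f4_one (w : Fin 8) : wbd f4S f4T (fun _ => (1 : ℕ)) w + ex 1 1 1 1 w = 3 := by
  obtain ⟨s0, s1, s2, s3, s4, s5, s6, s7⟩ := f4_sum (fun _ => (1 : ℕ))
  fin_cases w
  · exact congrArg (· + 1) s0
  · exact congrArg (· + 1) s1
  · exact congrArg (· + 1) s2
  · exact congrArg (· + 1) s3
  · exact congrArg (· + 0) s4
  · exact congrArg (· + 0) s5
  · exact congrArg (· + 0) s6
  · exact congrArg (· + 0) s7

lemma f4_wt (w : Fin 8) : wbd f4S f4T f4P w + ex 1 1 1 1 w = 4 := by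
  obtain ⟨s0, s1, s2, s3, s4, s5, s6, s7⟩ := f4_sum f4P
  fin_cases w
  · exact congrArg (· + 1) s0
  · exact congrArg (· + 1) s1
  · exact congrArg (· + 1) s2
  · exact congrArg (· + 1) s3
  · exact congrArg (· + 0) s4
  · exact congrArg (· + 0) s5
  · exact congrArg (· + 0) s6
  · exact congrArg (· + 0) s7

lemma grid_one (M : ℕ) (hM : Even (M + 1)) (x : gW M) :
    wbd (gS M) (gT M) (fun _ => (1 : ℕ)) x + ∑ h : Fin (M + 1), (if (((h, 0, 0) : gW M) = x) then 1 else 0) = 3 := by
  obtain ⟨i0, j0, w⟩ := x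
  rw [grid_out M (fun _ => (1 : ℕ)) i0 j0 w]
  have := grid_total M hM (fun _ => (1 : ℕ)) (fun _ _ => 1) (fun _ _ => 1) (fun _ _ => 1) 1 (fun _ _ => rfl)
    (fun _ _ => rfl) (fun _ => rfl) (fun _ => rfl) (fun _ _ => rfl) i0 j0 w
  exact this.trans (f4_one w)

lemma grid_wt (M : ℕ) (hM : Even (M + 1)) (x : gW M) :
    wbd (gS M) (gT M) (gP M) x + ∑ h : Fin (M + 1), (if (((h, 0, 0) : gW M) = x) then 1 else 0) = 4 := by
  obtain ⟨i0, j0, w⟩ := x
  rw [grid_out M (fun _ => (1 : ℕ)) i0 j0 w]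
  have := grid_total M hM (gP M) (fun _ _ => 1) (fun _ _ => 1) (fun _ _ => 1) 1 (fun _ _ => rfl)
    (fun _ _ => rfl) (fun _ => rfl) (fun _ => rfl) (fun _ _ => rfl) i0 j0 w
  exact this.trans (f4_wt w)

end Pool.Agent.Helper59.CW
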