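import Pool.Agent.Helper59.CW.Grid2

/-!
MP_1bf3cf_lc: the grid accepts all colourings of its ends in which every colour occurs an even number of times.
-/

set_option autoImplicit false
set_option linter.unusedSectionVars false
set_option linter.unusedSimpArgs false

namespace Pool.Agent.Helper59.CW

open Finset

lemma ext_of {O : Type} [Fintype O] (Q : Pole O) (n : ℕ) (c : O → Finset (Fin n)) (T : Q.F → Finset (Fin n))
    (hc : ∀ f, (T f).card = Q.p f)
    (hb : ∀ i w, wbd Q.s Q.t (fun f => if i ∈ T f then (1 : ZMod 2) else 0) w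
      + ∑ h, (if Q.o h = w ∧ i ∈ c h then (1 : ZMod 2) else 0) = 0) : Q.Ext n c := by
  have hm : ∀ i f, f ∈ univ.filter (fun f => i ∈ T f) ↔ i ∈ T f := by
    intro i f
    rw [mem_filter]
    exact ⟨fun h => h.2, fun h => ⟨mem_univ _, h⟩⟩
  refine ⟨fun i => univ.filter (fun f => i ∈ T f), ?_, ?_⟩
  · intro f
    rw [← hc f]
    congr 1
    ext i
    rw [mem_filter, hm]
    exact ⟨fun h => h.2, fun h => ⟨mem_univ _, h⟩⟩
  · intro i w
    refine Eq.trans ?_ (hb i w)
    refine congrArg₂ _ ?_ rfl
    rw [bd_wbd]
    unfold wbd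
    apply sum_congr rfl
    intro f _
    beta_reduce
    by_cases h : i ∈ T f
    · rw [if_pos h, if_pos ((hm i f).2 h)]
    · rw [if_neg h, if_neg (fun h' => h ((hm i f).1 h'))]

section route

variable {M n : ℕ} (c : Fin (M + 1) → Fin n) (x0 : Fin n)

/-- The first row with the same colour. -/
noncomputable def jj (i : Fin (M + 1)) : Fin (M + 1) :=
  (univ.filter (fun i' => c i' = c i)).min' ⟨i, by rw [mem_filter]; exact ⟨mem_univ _, rfl⟩⟩

lemma jj_col (i : Fin (M + 1)) : c (jj c i) = c i := by
  have h := min'_mem (univ.filter (fun i' => c i' = c i)) ⟨i, by rw [mem_filter]; exact ⟨mem_univ _, rfl⟩⟩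
  rw [mem_filter] at h
  exact h.2

lemma jj_eq (i i' : Fin (M + 1)) (h : c i = c i') : jj c i = jj c i' := by
  unfold jj
  simp only [h]

/-- The colour on the left side of a cell. -/
noncomputable def cl (i j : Fin (M + 1)) : Fin n := if j ≤ jj c i then c i else x0

/-- The colour on the right side of a cell. -/
noncomputable def cr (i j : Fin (M + 1)) : Fin n := if j < jj c i then c i else x0

/-- The colour below a cell. -/
noncomputable def cv (i j : Fin (M + 1)) : Fin n :=
  if Odd (univ.filter (fun i' => jj c i' = j ∧ i' ≤ i)).card then c j else x0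

/-- The colour above a cell. -/
noncomputable def cu (i j : Fin (M + 1)) : Fin n :=
  if Odd (univ.filter (fun i' => jj c i' = j ∧ i' < i)).card then c j else x0

lemma cl_zero (i : Fin (M + 1)) : cl c x0 i 0 = c i := by
  unfold cl
  rw [if_pos (Fin.zero_le _)]

lemma cr_last (i : Fin (M + 1)) : cr c x0 i (Fin.last M) = x0 := by
  unfold cr
  rw [if_neg (not_lt.2 (Fin.le_last _))]

lemma cl_succ (i : Fin (M + 1)) (j : Fin M) : cl c x0 i (Fin.succ j) = cr c x0 i (Fin.castSucc j) := by
  unfold cl cr
  have h : Fin.succ j ≤ jj c i ↔ Fin.castSucc j < jj c i := by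
    rw [Fin.lt_def, Fin.le_def]
    simp only [Fin.val_succ, Fin.val_castSucc]
    omega
  simp only [h]

/-- every colour occurs an even number of times -/
def EvC (c : Fin (M + 1) → Fin n) : Prop := ∀ x, Even (univ.filter (fun i => c i = x)).card

lemma fib_even (hc : EvC c) (j : Fin (M + 1)) : Even (univ.filter (fun i => jj c i = j)).card := by
  by_cases h : ∃ i, jj c i = j
  · obtain ⟨i0, h0⟩ := h
    have h1 : univ.filter (fun i => jj c i = j) = univ.filter (fun i => c i = c i0) := by
      apply filter_congr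
      intro i _
      constructor
      · intro h2
        rw [← jj_col c i, ← jj_col c i0, h2, h0]
      · intro h2
        rw [jj_eq c i i0 h2, h0]
    rw [h1]
    exact hc _
  · have h1 : univ.filter (fun i => jj c i = j) = ∅ := by
      rw [filter_eq_empty_iff]
      intro i _ h2
      exact h ⟨i, h2⟩
    rw [h1, card_empty]
    exact Even.zero

lemma cv_pred (hc : EvC c) (i j : Fin (M + 1)) : cv c x0 (i - 1) j = cu c x0 i j := by
  unfold cv cu
  by_cases h : i = 0
  · have h1 : univ.filter (fun i' => jj c i' = j ∧ i' ≤ i - 1) = univ.filter (fun i' => jj c i' = j) := by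
      apply filter_congr
      intro i' _
      have h2 : i - 1 = Fin.last M := by
        apply Fin.ext
        rw [h, zero_sub, Fin.coe_neg_one, Fin.val_last]
      rw [h2]
      exact ⟨fun h => h.1, fun h => ⟨h, Fin.le_last _⟩⟩
    have h2 : univ.filter (fun i' => jj c i' = j ∧ i' < i) = ∅ := by
      rw [filter_eq_empty_iff]
      rintro i' _ ⟨_, h3⟩
      rw [h] at h3
      exact absurd h3 (Fin.not_lt_zero i')
    rw [h1, h2, card_empty, if_neg (Nat.not_odd_iff_even.2 (fib_even c hc j)), if_neg (by decide)]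
  · have h1 : ∀ i' : Fin (M + 1), i' ≤ i - 1 ↔ i' < i := by
      intro i'
      have h3 : ((i - 1 : Fin (M + 1)) : ℕ) = i.1 - 1 := Fin.val_sub_one_of_ne_zero h
      have h4 : i.1 ≠ 0 := fun h5 => h (Fin.ext h5)
      rw [Fin.le_def, Fin.lt_def, h3]
      omega
    simp only [h1]

/-- the four colours at a cell -/
lemma cell (i j : Fin (M + 1)) :
    (cl c x0 i j = cr c x0 i j ∧ cu c x0 i j = cv c x0 i j) ∨
    (cl c x0 i j = cu c x0 i j ∧ cr c x0 i j = cv c x0 i j) ∨
    (cl c x0 i j = cv c x0 i j ∧ cr c x0 i j = cu c x0 i j) := by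
  by_cases h : jj c i = j
  · right
    have hl : cl c x0 i j = c i := by
      unfold cl
      rw [if_pos h.ge]
    have hr : cr c x0 i j = x0 := by
      unfold cr
      rw [if_neg (not_lt.2 h.le)]
    have hcj : c j = c i := by
      rw [← h]
      exact jj_col c i
    have hcard : (univ.filter (fun i' => jj c i' = j ∧ i' ≤ i)).card
        = (univ.filter (fun i' => jj c i' = j ∧ i' < i)).card + 1 := by
      rw [← card_insert_of_notMem (a := i)]
      · congr 1
        ext i'
        rw [mem_insert, mem_filter, mem_filter]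
        constructor
        · rintro ⟨_, h1, h2⟩
          rcases h2.eq_or_lt with h3 | h3
          · exact Or.inl h3
          · exact Or.inr ⟨mem_univ _, h1, h3⟩
        · rintro (h1 | ⟨_, h1, h2⟩)
          · rw [h1]
            exact ⟨mem_univ _, h, le_refl _⟩
          · exact ⟨mem_univ _, h1, h2.le⟩
      · rw [mem_filter]
        rintro ⟨_, _, h1⟩
        exact absurd h1 (lt_irrefl _)
    rw [hl, hr]
    unfold cu cv
    rw [hcard, hcj]
    by_cases h1 : Odd (univ.filter (fun i' => jj c i' = j ∧ i' < i)).card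
    · left
      have h2 : ¬ Odd ((univ.filter (fun i' => jj c i' = j ∧ i' < i)).card + 1) := by
        rw [Nat.odd_add_one]
        exact fun h3 => h3 h1
      rw [if_pos h1, if_neg h2]
      exact ⟨rfl, rfl⟩
    · right
      have h2 : Odd ((univ.filter (fun i' => jj c i' = j ∧ i' < i)).card + 1) := by
        rw [Nat.odd_add_one]
        exact h1
      rw [if_neg h1, if_pos h2]
      exact ⟨rfl, rfl⟩
  · left
    constructor
    · unfold cl cr
      have h1 : j ≤ jj c i ↔ j < jj c i :=
        ⟨fun h2 => lt_of_le_of_ne h2 (fun h3 => h h3.symm), fun h2 => h2.le⟩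
      simp only [h1]
    · unfold cu cv
      have h1 : univ.filter (fun i' => jj c i' = j ∧ i' < i) = univ.filter (fun i' => jj c i' = j ∧ i' ≤ i) := by
        apply filter_congr
        intro i' _
        constructor
        · rintro ⟨h1, h2⟩
          exact ⟨h1, h2.le⟩
        · rintro ⟨h1, h2⟩
          refine ⟨h1, lt_of_le_of_ne h2 ?_⟩
          intro h3
          rw [h3] at h1
          exact h h1
      rw [h1]

end route

theorem grid_ext (M n : ℕ) (hn : 3 ≤ n) (hM : Even (M + 1)) (c : Fin (M + 1) → Fin n) (hc : EvC c) :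
    (grid M).Ext n (fun h => {c h}) := by
  have x0 : Fin n := ⟨0, by omega⟩
  choose T hT1 hT2 using fun i j => f4_ext hn (cl c x0 i j) (cr c x0 i j) (cu c x0 i j) (cv c x0 i j) (cell c x0 i j)
  let TT : gF M → Finset (Fin n) :=
    Sum.elim (fun x => T x.1 x.2.1 x.2.2) (Sum.elim (fun x => {cr c x0 x.1 (Fin.castSucc x.2)})
      (Sum.elim (fun _ => {x0}) (fun x => {cv c x0 x.1 x.2})))
  refine ext_of (grid M) n _ TT ?_ ?_
  · rintro (⟨i, j, f⟩ | x | x | x)
    · exact hT1 i j f
    · exact card_singleton _
    · exact card_singleton _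
    · exact card_singleton _
  · rintro a ⟨i0, j0, w⟩
    have hs : ∑ h : Fin (M + 1), (if (grid M).o h = (i0, j0, w) ∧ a ∈ ({c h} : Finset (Fin n)) then (1 : ZMod 2) else 0)
        = (if 0 = w then (if j0 = 0 then (if a = cl c x0 i0 0 then (1 : ZMod 2) else 0) else 0) else 0) := by
      rw [cl_zero]
      refine Eq.trans ?_ (grid_out M (fun h => if a = c h then (1 : ZMod 2) else 0) i0 j0 w)
      apply sum_congr rfl
      intro h _
      by_cases h1 : ((h, 0, 0) : gW M) = (i0, j0, w)
      · by_cases h2 : a = c h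
        · rw [if_pos ⟨h1, mem_singleton.2 h2⟩, if_pos h1, if_pos h2]
        · rw [if_neg (fun h3 => h2 (mem_singleton.1 h3.2)), if_pos h1, if_neg h2]
      · rw [if_neg (fun h3 => h1 h3.1), if_neg h1]
    rw [hs]
    have h1 := grid_total M hM (fun f => if a ∈ TT f then (1 : ZMod 2) else 0)
      (fun i j => if a = cl c x0 i j then (1 : ZMod 2) else 0) (fun i j => if a = cr c x0 i j then (1 : ZMod 2) else 0)
      (fun i j => if a = cv c x0 i j then (1 : ZMod 2) else 0) (if a = x0 then (1 : ZMod 2) else 0)
      (fun i j => by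
        rw [cl_succ]
        exact sg_ind _ _)
      (fun i j => sg_ind _ _) (fun k => sg_ind _ _) (fun i => by
        rw [cr_last]) (fun i j => sg_ind _ _) i0 j0 w
    have h2 := hT2 i0 j0 a w
    beta_reduce at h1
    rw [cv_pred c x0 hc] at h1
    exact h1.trans h2

end Pool.Agent.Helper59.CW
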