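import Pool.Agent.Helper59.CW.VR

/-!
MP_1bf3cf_lc: two-terminal graphs with weights 1 and 2 in which the ends of edges of weight 2 have degree 3.
-/

set_option autoImplicit false
set_option linter.unusedSectionVars false
set_option linter.unusedSimpArgs false

namespace Pool.Agent.Helper59.CW

open Finset

section subst

variable {V E : Type} [Fintype V] [DecidableEq V] [Fintype E] [DecidableEq E]
variable {R : Type} [CommSemiring R]

lemma locR_inl (s t : E → V) (g : E → Gad) (e : E) (w : (g e).W) (v : V) :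
    (if loc s t g e w = Sum.inl v then (1 : R) else 0)
      = (if s e = v then 1 else 0) * (if w = (g e).a then 1 else 0)
        + (if t e = v then 1 else 0) * (if w = (g e).b then 1 else 0) := by
  have hab := (g e).ab
  unfold loc
  by_cases h1 : w = (g e).a
  · have h2 : w ≠ (g e).b := fun h => hab (h1.symm.trans h)
    simp [h1, hab]
  · by_cases h2 : w = (g e).b
    · have h3 : (g e).b ≠ (g e).a := fun h => hab h.symm
      simp [h2, h3]
    · simp [h1, h2]

lemma locR_inr (s t : E → V) (g : E → Gad) (e : E) (w w0 : (g e).W) :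
    (if loc s t g e w = Sum.inr ⟨e, w0⟩ then (1 : R) else 0)
      = if w0 = (g e).a ∨ w0 = (g e).b then 0 else (if w = w0 then 1 else 0) := by
  unfold loc
  by_cases h1 : w = (g e).a
  · by_cases h3 : w0 = (g e).a ∨ w0 = (g e).b
    · simp [h1, h3]
    · have h4 : w ≠ w0 := fun h => h3 (Or.inl (h.symm.trans h1))
      rw [if_pos h1, if_neg h3, if_neg h4, if_neg (by simp)]
  · by_cases h2 : w = (g e).b
    · by_cases h3 : w0 = (g e).a ∨ w0 = (g e).b
      · rw [if_neg h1, if_pos h2, if_pos h3, if_neg (by simp)]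
      · rw [if_neg h1, if_pos h2, if_neg h3, if_neg (by simp), if_neg]
        intro h5
        exact h3 (Or.inr (h5.symm.trans h2))
    · rw [if_neg h1, if_neg h2]
      by_cases h3 : w0 = (g e).a ∨ w0 = (g e).b
      · rw [if_pos h3, if_neg]
        intro h5
        have h6 : w = w0 := by
          have := Sum.inr.inj h5
          simpa using this
        rcases h3 with h | h
        · exact h1 (h6.trans h)
        · exact h2 (h6.trans h)
      · rw [if_neg h3]
        by_cases h6 : w = w0
        · simp [h6]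
        · rw [if_neg h6, if_neg]
          intro h5
          have := Sum.inr.inj h5
          exact h6 (by simpa using this)

lemma wbd_inl (s t : E → V) (g : E → Gad) (G : (Σ e, (g e).F) → R) (v : V) :
    wbd (newS s t g) (newT s t g) G (Sum.inl v)
      = ∑ e, ((if s e = v then 1 else 0) * wbd (g e).s (g e).t (fun f => G ⟨e, f⟩) (g e).a
        + (if t e = v then 1 else 0) * wbd (g e).s (g e).t (fun f => G ⟨e, f⟩) (g e).b) := by
  unfold wbd
  rw [Fintype.sum_sigma]
  apply sum_congr rfl
  intro e _
  rw [mul_sum, mul_sum, ← sum_add_distrib]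
  apply sum_congr rfl
  intro f _
  unfold newS newT
  rw [locR_inl, locR_inl]
  ring

lemma wbd_inr (s t : E → V) (g : E → Gad) (G : (Σ e, (g e).F) → R) (e : E) (w : (g e).W) :
    wbd (newS s t g) (newT s t g) G (Sum.inr ⟨e, w⟩)
      = if w = (g e).a ∨ w = (g e).b then 0 else wbd (g e).s (g e).t (fun f => G ⟨e, f⟩) w := by
  unfold wbd
  rw [Fintype.sum_sigma, Fintype.sum_eq_single e]
  · by_cases h3 : w = (g e).a ∨ w = (g e).b
    · rw [if_pos h3]
      apply sum_eq_zero
      intro f _
      unfold newS newT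
      rw [locR_inr, locR_inr, if_pos h3, if_pos h3, add_zero, mul_zero]
    · rw [if_neg h3]
      apply sum_congr rfl
      intro f _
      unfold newS newT
      rw [locR_inr, locR_inr, if_neg h3, if_neg h3]
  · intro e' he'
    apply sum_eq_zero
    intro f _
    unfold newS newT
    rw [if_neg (loc_inr_ne s t g e' e he' _ w), if_neg (loc_inr_ne s t g e' e he' _ w), add_zero, mul_zero]

end subst

/-- All weights are 1 or 2, and the ends of edges of weight 2 are not terminals, have degree 3 and total weight 4. -/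
def Shape (g : Gad) : Prop := (∀ f, g.p f = 1 ∨ g.p f = 2) ∧
  ∀ w f, g.p f = 2 → (g.s f = w ∨ g.t f = w) →
    w ≠ g.a ∧ w ≠ g.b ∧ wbd g.s g.t (fun _ => (1 : ℕ)) w = 3 ∧ wbd g.s g.t g.p w = 4

section subst2

variable {V E : Type} [Fintype V] [DecidableEq V] [Fintype E] [DecidableEq E]

lemma heavy_end (s t : E → V) (g : E → Gad) (hg : ∀ e, Shape (g e)) (x : V ⊕ (Σ e, (g e).W)) (y : Σ e, (g e).F)
    (h2 : newP g y = 2) (hx : newS s t g y = x ∨ newT s t g y = x) :
    (∃ z, x = Sum.inr z) ∧ wbd (newS s t g) (newT s t g) (fun _ => (1 : ℕ)) x = 3 ∧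
      wbd (newS s t g) (newT s t g) (newP g) x = 4 := by
  obtain ⟨e, f⟩ := y
  have key : ∀ w, ((g e).s f = w ∨ (g e).t f = w) → loc s t g e w = x →
      (∃ z, x = Sum.inr z) ∧ wbd (newS s t g) (newT s t g) (fun _ => (1 : ℕ)) x = 3 ∧
      wbd (newS s t g) (newT s t g) (newP g) x = 4 := by
    intro w hw hx
    obtain ⟨h3, h4, h5, h6⟩ := (hg e).2 w f h2 hw
    unfold loc at hx
    rw [if_neg h3, if_neg h4] at hx
    subst hx
    refine ⟨⟨_, rfl⟩, ?_, ?_⟩
    · rw [wbd_inr, if_neg (by rw [not_or]; exact ⟨h3, h4⟩)]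
      exact h5
    · rw [wbd_inr, if_neg (by rw [not_or]; exact ⟨h3, h4⟩)]
      exact h6
  rcases hx with hx | hx
  · exact key _ (Or.inl rfl) hx
  · exact key _ (Or.inr rfl) hx

lemma weights (g : E → Gad) (hg : ∀ e, Shape (g e)) (y : Σ e, (g e).F) : newP g y = 1 ∨ newP g y = 2 :=
  (hg y.1).1 y.2

lemma comp_shape (P : Gad) (g : P.F → Gad) (hg : ∀ f, Shape (g f)) : Shape (comp P g) := by
  refine ⟨fun y => weights g hg y, ?_⟩
  intro w y h2 hw
  obtain ⟨⟨z, hz⟩, h3, h4⟩ := heavy_end P.s P.t g hg w y h2 hw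
  refine ⟨?_, ?_, h3, h4⟩
  · intro h
    rw [hz] at h
    cases h
  · intro h
    rw [hz] at h
    cases h

lemma good_parity (g : Gad) (k : ℕ) (h : Good g k) (w : g.W) :
    ((wbd g.s g.t g.p w : ℕ) : ZMod 2) = k * ((if g.a = w then 1 else 0) + (if g.b = w then 1 else 0)) := by
  have h1 := (h k (fun _ w => (if g.a = w then 1 else 0) + (if g.b = w then 1 else 0)) (by
    intro i w hwa hwb
    rw [if_neg (Ne.symm hwa), if_neg (Ne.symm hwb), add_zero])).2 ⟨univ, by rw [card_univ, Fintype.card_fin], by
    intro i w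
    rw [if_pos (mem_univ _)]⟩
  obtain ⟨A, h2, h3⟩ := h1
  rw [wbd_cast]
  have h4 : ∑ i : Fin k, bd g.s g.t (A i) w = k * ((if g.a = w then 1 else 0) + (if g.b = w then 1 else 0)) := by
    rw [sum_congr rfl (fun i _ => h3 i w), sum_const, card_univ, Fintype.card_fin, nsmul_eq_mul]
  rw [← h4]
  simp only [bd_wbd]
  unfold wbd
  rw [sum_comm]
  apply sum_congr rfl
  intro f _
  rw [← sum_mul]
  refine congrArg₂ _ ?_ rfl
  beta_reduce
  rw [← h2 f, card_filter]
  push_cast
  rfl

lemma new_parity (s t : E → V) (p : E → ℕ) (g : E → Gad) (hg : ∀ e, Good (g e) (p e)) (v : V) :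
    ((wbd (newS s t g) (newT s t g) (newP g) (Sum.inl v) : ℕ) : ZMod 2) = ((wbd s t p v : ℕ) : ZMod 2) := by
  rw [wbd_cast, wbd_cast, wbd_inl]
  conv_rhs => unfold wbd
  apply sum_congr rfl
  intro e _
  have ha := good_parity (g e) (p e) (hg e) (g e).a
  have hb := good_parity (g e) (p e) (hg e) (g e).b
  rw [wbd_cast] at ha hb
  have ha' : wbd (g e).s (g e).t (fun f => ((newP g ⟨e, f⟩ : ℕ) : ZMod 2)) (g e).a = p e := by
    refine Eq.trans ha ?_
    rw [if_pos rfl, if_neg (g e).ab.symm, add_zero, mul_one]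
  have hb' : wbd (g e).s (g e).t (fun f => ((newP g ⟨e, f⟩ : ℕ) : ZMod 2)) (g e).b = p e := by
    refine Eq.trans hb ?_
    rw [if_pos rfl, if_neg (g e).ab, zero_add, mul_one]
  rw [ha', hb']
  ring

lemma new_parity' (s t : E → V) (p : E → ℕ) (g : E → Gad) (hg : ∀ e, Good (g e) (p e)) (z : Σ e, (g e).W) :
    ((wbd (newS s t g) (newT s t g) (newP g) (Sum.inr z) : ℕ) : ZMod 2) = 0 := by
  obtain ⟨e, w⟩ := z
  rw [wbd_cast, wbd_inr]
  by_cases h : w = (g e).a ∨ w = (g e).b
  · rw [if_pos h]
  · rw [if_neg h]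
    have h1 := good_parity (g e) (p e) (hg e) w
    rw [wbd_cast] at h1
    refine Eq.trans h1 ?_
    rw [not_or] at h
    rw [if_neg (Ne.symm h.1), if_neg (Ne.symm h.2), add_zero, mul_zero]

end subst2

/-- Two vertices without edges. -/
def none' : Gad where
  W := Bool
  F := Empty
  s := fun _ => false
  t := fun _ => false
  a := false
  b := true
  ab := by decide
  p := fun _ => 0

lemma none_good : Good none' 0 := by
  intro n d hd
  have h0 : ∀ (A : Finset none'.F) w, bd none'.s none'.t A w = 0 := by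
    intro A w
    unfold bd
    exact sum_eq_zero fun e _ => Empty.elim e
  constructor
  · rintro ⟨A, h1, h2⟩
    refine ⟨∅, card_empty, ?_⟩
    intro i w
    rw [if_neg (notMem_empty i), ← h2 i w]
    exact h0 _ _
  · rintro ⟨S, h1, h2⟩
    refine ⟨fun _ => ∅, fun f => Empty.elim f, ?_⟩
    intro i w
    rw [card_eq_zero] at h1
    rw [h2 i w, h1, if_neg (notMem_empty i)]
    exact h0 _ _

lemma none_shape : Shape none' := ⟨fun f => Empty.elim f, fun _ f => Empty.elim f⟩

lemma single_shape : Shape (single 1) := by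
  refine ⟨fun _ => Or.inl rfl, ?_⟩
  intro w f h
  exact absurd (show (1 : ℕ) = 2 from h) (by norm_num)

/-- First ends. -/
def dS : Fin 5 → Fin 4 := ![0, 0, 2, 3, 3]

/-- Second ends. -/
def dT : Fin 5 → Fin 4 := ![2, 2, 3, 1, 1]

/-- Weights. -/
def dP : Fin 5 → ℕ := ![1, 1, 2, 1, 1]

/-- An edge of weight 2 whose ends are joined with the terminals by two edges each. -/
def dbl : Gad where
  W := Fin 4
  F := Fin 5
  s := dS
  t := dT
  a := 0
  b := 1
  ab := by decide
  p := dP

lemma dbl_bd (A : Finset (Fin 5)) :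
    bd dS dT A 0 = (if 0 ∈ A then 1 else 0) + (if 1 ∈ A then 1 else 0) ∧
    bd dS dT A 1 = (if 3 ∈ A then 1 else 0) + (if 4 ∈ A then 1 else 0) ∧
    bd dS dT A 2 = (if 0 ∈ A then 1 else 0) + (if 1 ∈ A then 1 else 0) + (if 2 ∈ A then 1 else 0) ∧
    bd dS dT A 3 = (if 2 ∈ A then 1 else 0) + (if 3 ∈ A then 1 else 0) + (if 4 ∈ A then 1 else 0) := by
  unfold bd
  simp only [Fin.sum_univ_five]
  refine ⟨?_, ?_, ?_, ?_⟩ <;> simp [dS, dT]

lemma z2 (x y : ZMod 2) (h : x + y = 0) : x = y := by
  revert x y
  decide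

lemma dbl_good : Good dbl 2 := by
  intro n d hd
  constructor
  · rintro ⟨A, h1, h2⟩
    refine ⟨univ.filter (fun i => (2 : Fin 5) ∈ A i), h1 (2 : Fin 5), ?_⟩
    have hd2 : ∀ i, d i (2 : Fin 4) = 0 := fun i =>
      hd i (2 : Fin 4) (show (2 : Fin 4) ≠ 0 by decide) (show (2 : Fin 4) ≠ 1 by decide)
    have hd3 : ∀ i, d i (3 : Fin 4) = 0 := fun i =>
      hd i (3 : Fin 4) (show (3 : Fin 4) ≠ 0 by decide) (show (3 : Fin 4) ≠ 1 by decide)
    intro i
    have e0 : bd dS dT (A i) 0 = d i (0 : Fin 4) := h2 i (0 : Fin 4)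
    have e1 : bd dS dT (A i) 1 = d i (1 : Fin 4) := h2 i (1 : Fin 4)
    have e2 : bd dS dT (A i) 2 = d i (2 : Fin 4) := h2 i (2 : Fin 4)
    have e3 : bd dS dT (A i) 3 = d i (3 : Fin 4) := h2 i (3 : Fin 4)
    obtain ⟨b0, b1, b2, b3⟩ := dbl_bd (A i)
    rw [hd2, b2] at e2
    rw [hd3, b3] at e3
    rw [b0] at e0
    rw [b1] at e1
    have f0 : d i (0 : Fin 4) = if (2 : Fin 5) ∈ A i then 1 else 0 := e0.symm.trans (z2 _ _ e2)
    have f1 : d i (1 : Fin 4) = if (2 : Fin 5) ∈ A i then 1 else 0 := by
      rw [add_assoc] at e3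
      exact e1.symm.trans (z2 _ _ e3).symm
    have hm : i ∈ univ.filter (fun i => (2 : Fin 5) ∈ A i) ↔ (2 : Fin 5) ∈ A i := by
      rw [mem_filter]
      exact ⟨fun h => h.2, fun h => ⟨mem_univ _, h⟩⟩
    show ∀ w : Fin 4, d i w = if i ∈ univ.filter (fun i => (2 : Fin 5) ∈ A i) then
      (if (0 : Fin 4) = w then (1 : ZMod 2) else 0) + (if (1 : Fin 4) = w then 1 else 0) else 0
    intro w
    by_cases h : (2 : Fin 5) ∈ A i
    · rw [if_pos (hm.2 h)]
      rw [if_pos h] at f0 f1
      fin_cases w
      · exact f0.trans (by decide)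
      · exact f1.trans (by decide)
      · exact (hd2 i).trans (by decide)
      · exact (hd3 i).trans (by decide)
    · rw [if_neg (fun h' => h (hm.1 h'))]
      rw [if_neg h] at f0 f1
      fin_cases w
      · exact f0
      · exact f1
      · exact hd2 i
      · exact hd3 i
  · rintro ⟨S, h1, h2⟩
    obtain ⟨i1, i2, hne, hS⟩ := card_eq_two.1 h1
    let A : Fin n → Finset (Fin 5) := fun i => if i = i1 then {0, 2, 3} else if i = i2 then {1, 2, 4} else ∅
    have hA : ∀ i, A i = if i = i1 then {0, 2, 3} else if i = i2 then {1, 2, 4} else ∅ := fun i => rfl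
    refine ⟨A, ?_, ?_⟩
    · have c1 : ∀ f : Fin 5, (f = 0 ∨ f = 3) → univ.filter (fun i => f ∈ A i) = {i1} := by
        intro f hf
        ext i
        rw [mem_filter, hA, mem_singleton]
        by_cases h3 : i = i1
        · rw [if_pos h3]
          rcases hf with rfl | rfl <;> simp [h3]
        · by_cases h4 : i = i2
          · rw [if_neg h3, if_pos h4]
            rcases hf with rfl | rfl <;> simp [h4, hne.symm]
          · rw [if_neg h3, if_neg h4]
            simp [h3]
      have c2 : ∀ f : Fin 5, (f = 1 ∨ f = 4) → univ.filter (fun i => f ∈ A i) = {i2} := by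
        intro f hf
        ext i
        rw [mem_filter, hA, mem_singleton]
        by_cases h3 : i = i1
        · rw [if_pos h3]
          rcases hf with rfl | rfl <;> simp [h3, hne]
        · by_cases h4 : i = i2
          · rw [if_neg h3, if_pos h4]
            rcases hf with rfl | rfl <;> simp [h4]
          · rw [if_neg h3, if_neg h4]
            simp [h4]
      have c3 : univ.filter (fun i => (2 : Fin 5) ∈ A i) = {i1, i2} := by
        ext i
        rw [mem_filter, hA, mem_insert, mem_singleton]
        by_cases h3 : i = i1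
        · rw [if_pos h3]
          simp [h3]
        · by_cases h4 : i = i2
          · rw [if_neg h3, if_pos h4]
            simp [h4]
          · rw [if_neg h3, if_neg h4]
            simp [h3, h4]
      show ∀ f : Fin 5, (univ.filter (fun i => f ∈ A i)).card = dP f
      intro f
      fin_cases f
      · exact (congrArg card (c1 0 (Or.inl rfl))).trans (card_singleton _)
      · exact (congrArg card (c2 1 (Or.inl rfl))).trans (card_singleton _)
      · exact (congrArg card c3).trans (card_pair hne)
      · exact (congrArg card (c1 3 (Or.inr rfl))).trans (card_singleton _)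
      · exact (congrArg card (c2 4 (Or.inr rfl))).trans (card_singleton _)
    · intro i w
      refine Eq.trans ?_ (h2 i w).symm
      revert w
      show ∀ w : Fin 4, bd dS dT (A i) w = if i ∈ S then
        (if (0 : Fin 4) = w then (1 : ZMod 2) else 0) + (if (1 : Fin 4) = w then 1 else 0) else 0
      obtain ⟨b0, b1, b2, b3⟩ := dbl_bd (A i)
      by_cases h3 : i = i1
      · have h4 : i ∈ S := by rw [hS, h3]; exact mem_insert_self _ _
        rw [hA, if_pos h3] at b0 b1 b2 b3
        intro w
        rw [if_pos h4, hA, if_pos h3]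
        fin_cases w
        · exact b0.trans (by decide)
        · exact b1.trans (by decide)
        · exact b2.trans (by decide)
        · exact b3.trans (by decide)
      · by_cases h5 : i = i2
        · have h4 : i ∈ S := by rw [hS, h5]; exact mem_insert_of_mem (mem_singleton_self _)
          rw [hA, if_neg h3, if_pos h5] at b0 b1 b2 b3
          intro w
          rw [if_pos h4, hA, if_neg h3, if_pos h5]
          fin_cases w
          · exact b0.trans (by decide)
          · exact b1.trans (by decide)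
          · exact b2.trans (by decide)
          · exact b3.trans (by decide)
        · have h4 : i ∉ S := by
            rw [hS, mem_insert, mem_singleton, not_or]
            exact ⟨h3, h5⟩
          intro w
          rw [if_neg h4, hA, if_neg h3, if_neg h5]
          unfold bd
          exact sum_eq_zero fun e _ => if_neg (notMem_empty e)

lemma dbl_shape : Shape dbl := by
  refine ⟨?_, ?_⟩
  · show ∀ f : Fin 5, dP f = 1 ∨ dP f = 2
    decide
  · show ∀ (w : Fin 4) (f : Fin 5), dP f = 2 → (dS f = w ∨ dT f = w) → w ≠ 0 ∧ w ≠ 1 ∧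
      wbd dS dT (fun _ => (1 : ℕ)) w = 3 ∧ wbd dS dT dP w = 4
    unfold wbd
    decide

theorem exists_gad2 (k : ℕ) : ∃ g : Gad, Good g k ∧ Shape g ∧ Fintype.card g.F ≤ 14 ^ k := by
  induction k using Nat.strong_induction_on with
  | _ k ih =>
    by_cases hk : k ≤ 2
    · interval_cases k
      · exact ⟨none', none_good, none_shape, by
          show Fintype.card Empty ≤ _
          rw [Fintype.card_empty]
          exact Nat.zero_le _⟩
      · exact ⟨single 1, single_good 1, single_shape, by
          show Fintype.card Unit ≤ _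
          rw [Fintype.card_unit]
          norm_num⟩
      · exact ⟨dbl, dbl_good, dbl_shape, by
          show Fintype.card (Fin 5) ≤ _
          rw [Fintype.card_fin]
          norm_num⟩
    · push Not at hk
      have hk3 : 3 ≤ k := hk
      have h1 : ∀ f : Fin 14, ∃ g : Gad, Good g (pW k f) ∧ Shape g ∧ Fintype.card g.F ≤ 14 ^ (pW k f) :=
        fun f => ih _ (pW_lt k hk3 f)
      choose g hg1 hg2 hg3 using h1
      refine ⟨comp (pet k) g, comp_good (pet k) g k (pet_good k hk3) hg1, comp_shape (pet k) g hg2, ?_⟩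
      have h2 : Fintype.card (comp (pet k) g).F = ∑ f : Fin 14, Fintype.card (g f).F :=
        Fintype.card_sigma
      rw [h2]
      have h3 : ∀ f ∈ (univ : Finset (Fin 14)), Fintype.card (g f).F ≤ 14 ^ (k - 1) := by
        intro f _
        refine (hg3 f).trans (Nat.pow_le_pow_right (by norm_num) ?_)
        have := pW_lt k hk3 f
        omega
      refine (sum_le_sum h3).trans ?_
      rw [sum_const, card_univ, Fintype.card_fin, smul_eq_mul, ← pow_succ']
      exact Nat.pow_le_pow_right (by norm_num) (by omega)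

end Pool.Agent.Helper59.CW
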