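import Pool.Agent.Helper59.CW.Base

/-!
MP_1bf3cf_lc: the Petersen graph minus an edge, with suitable weights, behaves like an edge of weight `k`.
-/

set_option autoImplicit false
set_option linter.unusedSectionVars false
set_option linter.unusedSimpArgs false

namespace Pool.Agent.Helper59.CW

open Finset

/-- A single edge of weight `k`. -/
def single (k : ℕ) : Gad where
  W := Bool
  F := Unit
  s := fun _ => false
  t := fun _ => true
  a := false
  b := true
  ab := by decide
  p := fun _ => k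

lemma single_good (k : ℕ) : Good (single k) k := by
  intro n d hd
  constructor
  · rintro ⟨A, h1, h2⟩
    refine ⟨univ.filter (fun i => () ∈ A i), h1 (), ?_⟩
    intro i w
    rw [← h2 i w]
    unfold bd
    simp [single]
  · rintro ⟨S, h1, h2⟩
    refine ⟨fun i => if i ∈ S then univ else ∅, ?_, ?_⟩
    · intro e
      rw [← show S.card = (single k).p e from h1]
      congr 1
      ext i
      by_cases h : i ∈ S <;> simp [h]
    · intro i w
      rw [h2 i w]
      show bd (single k).s (single k).t (if i ∈ S then univ else ∅) w = _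
      by_cases h : i ∈ S
      · rw [if_pos h, if_pos h]
        show (∑ e : Unit, if e ∈ (univ : Finset Unit) then (if false = w then (1 : ZMod 2) else 0)
          + (if true = w then 1 else 0) else 0) = (if false = w then 1 else 0) + (if true = w then 1 else 0)
        rw [Fintype.sum_unique, if_pos (mem_univ _)]
      · rw [if_neg h, if_neg h]
        exact sum_eq_zero fun e _ => if_neg (notMem_empty e)

/-- First ends in the Petersen graph (outer cycle `0,…,4`, inner vertices `5,…,9`, `5 + i` is joined with `i`) minus the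
edge `01`. -/
def pS : Fin 14 → Fin 10 := ![0, 1, 2, 3, 4, 5, 6, 2, 1, 3, 4, 7, 9, 8]

/-- Second ends. -/
def pT : Fin 14 → Fin 10 := ![5, 6, 7, 8, 9, 7, 8, 3, 2, 4, 0, 9, 6, 5]

/-- The weights. -/
def pW (k : ℕ) : Fin 14 → ℕ := ![k - 1, k - 1, k - 1, k - 1, 2, k - 2, k - 2, k - 2, 1, 1, 1, 1, 1, 1]

/-- The Petersen graph minus an edge; the weights make all vertices except the terminals `0, 1` tight. -/
def pet (k : ℕ) : Gad where
  W := Fin 10
  F := Fin 14
  s := pS
  t := pT
  a := 0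
  b := 1
  ab := by decide
  p := pW k

lemma tight {n : ℕ} (E F G : Finset (Fin n)) (h : ∀ i, i ∈ G ↔ (i ∈ E ∧ i ∉ F) ∨ (i ∈ F ∧ i ∉ E))
    (hc : G.card = E.card + F.card) : (∀ i, i ∈ G ↔ i ∈ E ∨ i ∈ F) ∧ ∀ i, i ∈ E → i ∉ F := by
  have h1 : (E ∪ F).card + (E ∩ F).card = E.card + F.card := card_union_add_card_inter E F
  have h2 : G ⊆ E ∪ F := by
    intro i hi
    rw [mem_union]
    rcases (h i).1 hi with h3 | h3
    · exact Or.inl h3.1
    · exact Or.inr h3.1
  have h3 := card_le_card h2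
  have h4 : (E ∩ F).card = 0 := by omega
  rw [card_eq_zero] at h4
  have h5 : ∀ i, i ∈ E → i ∉ F := by
    intro i hi hi'
    have : i ∈ E ∩ F := mem_inter.2 ⟨hi, hi'⟩
    rw [h4] at this
    exact absurd this (notMem_empty i)
  refine ⟨?_, h5⟩
  intro i
  rw [h i]
  constructor
  · rintro (h6 | h6)
    · exact Or.inl h6.1
    · exact Or.inr h6.1
  · rintro (h6 | h6)
    · exact Or.inl ⟨h6, h5 i h6⟩
    · exact Or.inr ⟨h6, fun h7 => h5 i h7 h6⟩

/-- three terms with sum zero modulo 2 -/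
lemma xor3 (P Q R : Prop) [Decidable P] [Decidable Q] [Decidable R]
    (h : (if P then (1 : ZMod 2) else 0) + (if Q then 1 else 0) + (if R then 1 else 0) = 0) :
    P ↔ (Q ∧ ¬ R) ∨ (R ∧ ¬ Q) := by
  by_cases hP : P <;> by_cases hQ : Q <;> by_cases hR : R <;> simp [hP, hQ, hR] at h ⊢
  all_goals exact absurd h (by decide)

lemma three (v : Fin 10) (e1 e2 e3 : Fin 14) (h12 : e1 ≠ e2) (h13 : e1 ≠ e3) (h23 : e2 ≠ e3)
    (h : ∀ e, ((if pS e = v then 1 else 0) + (if pT e = v then 1 else 0) : ZMod 2)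
      = if e = e1 ∨ e = e2 ∨ e = e3 then 1 else 0) (A : Finset (Fin 14)) :
    bd pS pT A v = (if e1 ∈ A then 1 else 0) + (if e2 ∈ A then 1 else 0) + (if e3 ∈ A then 1 else 0) := by
  have h1 : ∀ e, (if e ∈ A then ((if pS e = v then 1 else 0) + (if pT e = v then 1 else 0) : ZMod 2) else 0)
      = (if e = e1 then (if e1 ∈ A then 1 else 0) else 0) + (if e = e2 then (if e2 ∈ A then 1 else 0) else 0)
        + (if e = e3 then (if e3 ∈ A then 1 else 0) else 0) := by
    intro e
    rw [h e]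
    by_cases h4 : e = e1
    · subst h4; simp [h12, h13]
    · by_cases h5 : e = e2
      · subst h5; simp [h12.symm, h23]
      · by_cases h6 : e = e3
        · subst h6; simp [h13.symm, h23.symm]
        · simp [h4, h5, h6]
  unfold bd
  rw [sum_congr rfl (fun e _ => h1 e), sum_add_distrib, sum_add_distrib]
  simp

lemma two (v : Fin 10) (e1 e2 : Fin 14) (h12 : e1 ≠ e2)
    (h : ∀ e, ((if pS e = v then 1 else 0) + (if pT e = v then 1 else 0) : ZMod 2)
      = if e = e1 ∨ e = e2 then 1 else 0) (A : Finset (Fin 14)) :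
    bd pS pT A v = (if e1 ∈ A then 1 else 0) + (if e2 ∈ A then 1 else 0) := by
  have h1 : ∀ e, (if e ∈ A then ((if pS e = v then 1 else 0) + (if pT e = v then 1 else 0) : ZMod 2) else 0)
      = (if e = e1 then (if e1 ∈ A then 1 else 0) else 0) + (if e = e2 then (if e2 ∈ A then 1 else 0) else 0) := by
    intro e
    rw [h e]
    by_cases h4 : e = e1
    · subst h4; simp [h12]
    · by_cases h5 : e = e2
      · subst h5; simp [h12.symm]
      · simp [h4, h5]
  unfold bd
  rw [sum_congr rfl (fun e _ => h1 e), sum_add_distrib]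
  simp

lemma b0 (A : Finset (Fin 14)) : bd pS pT A 0 = (if 0 ∈ A then 1 else 0) + (if 10 ∈ A then 1 else 0) :=
  two 0 0 10 (by decide) (by decide) A

lemma b1 (A : Finset (Fin 14)) : bd pS pT A 1 = (if 1 ∈ A then 1 else 0) + (if 8 ∈ A then 1 else 0) :=
  two 1 1 8 (by decide) (by decide) A

lemma b2 (A : Finset (Fin 14)) :
    bd pS pT A 2 = (if 2 ∈ A then 1 else 0) + (if 7 ∈ A then 1 else 0) + (if 8 ∈ A then 1 else 0) :=
  three 2 2 7 8 (by decide) (by decide) (by decide) (by decide) A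

lemma b3 (A : Finset (Fin 14)) :
    bd pS pT A 3 = (if 3 ∈ A then 1 else 0) + (if 7 ∈ A then 1 else 0) + (if 9 ∈ A then 1 else 0) :=
  three 3 3 7 9 (by decide) (by decide) (by decide) (by decide) A

lemma b4 (A : Finset (Fin 14)) :
    bd pS pT A 4 = (if 4 ∈ A then 1 else 0) + (if 9 ∈ A then 1 else 0) + (if 10 ∈ A then 1 else 0) :=
  three 4 4 9 10 (by decide) (by decide) (by decide) (by decide) A

lemma b5 (A : Finset (Fin 14)) :
    bd pS pT A 5 = (if 0 ∈ A then 1 else 0) + (if 5 ∈ A then 1 else 0) + (if 13 ∈ A then 1 else 0) :=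
  three 5 0 5 13 (by decide) (by decide) (by decide) (by decide) A

lemma b6 (A : Finset (Fin 14)) :
    bd pS pT A 6 = (if 1 ∈ A then 1 else 0) + (if 6 ∈ A then 1 else 0) + (if 12 ∈ A then 1 else 0) :=
  three 6 1 6 12 (by decide) (by decide) (by decide) (by decide) A

lemma b7 (A : Finset (Fin 14)) :
    bd pS pT A 7 = (if 2 ∈ A then 1 else 0) + (if 5 ∈ A then 1 else 0) + (if 11 ∈ A then 1 else 0) :=
  three 7 2 5 11 (by decide) (by decide) (by decide) (by decide) A

lemma b8 (A : Finset (Fin 14)) :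
    bd pS pT A 8 = (if 3 ∈ A then 1 else 0) + (if 6 ∈ A then 1 else 0) + (if 13 ∈ A then 1 else 0) :=
  three 8 3 6 13 (by decide) (by decide) (by decide) (by decide) A

lemma b9 (A : Finset (Fin 14)) :
    bd pS pT A 9 = (if 4 ∈ A then 1 else 0) + (if 11 ∈ A then 1 else 0) + (if 12 ∈ A then 1 else 0) :=
  three 9 4 11 12 (by decide) (by decide) (by decide) (by decide) A

lemma core {α : Type} (X Y Z : Finset α) (w z y a b c : α) (cX : c ∉ X) (aX : a ∉ X) (wZ : w ∉ Z) (zZ : z ∉ Z)
    (bY : b ∉ Y) (cY : c ∉ Y) (yz : y ≠ z)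
    (h2 : ∀ i, (i ∈ X ∨ i = a) ↔ (i ∈ Z ∨ i = w)) (h3 : ∀ i, (i ∈ Y ∨ i = c) ↔ (i ∈ Z ∨ i = z))
    (h4 : ∀ i, (i = a ∨ i = b) ↔ (i = z ∨ i = y)) :
    (y ∉ X ∧ y ≠ c) ∧ (w ∉ Y ∧ w ≠ b) ∧ ∀ i, ((i ∈ X ∨ i = c) ∨ i = y) ↔ ((i ∈ Y ∨ i = b) ∨ i = w) := by
  have hz4 := (h4 z).2 (Or.inl rfl)
  rcases (h4 y).2 (Or.inr rfl) with hy | hy
  · subst hy
    rcases hz4 with hz | hz
    · exact absurd hz.symm yz
    · subst hz
      have hzc : z = c := by
        rcases (h3 z).2 (Or.inr rfl) with h | h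
        · exact absurd h bY
        · exact h
      subst hzc
      have hYZ : ∀ i, i ∈ Y ↔ i ∈ Z := by
        intro i
        constructor
        · intro hi
          rcases (h3 i).1 (Or.inl hi) with h | h
          · exact h
          · rw [h] at hi
            exact absurd hi bY
        · intro hi
          rcases (h3 i).2 (Or.inl hi) with h | h
          · exact h
          · rw [h] at hi
            exact absurd hi zZ
      refine ⟨⟨aX, yz⟩, ⟨fun h => wZ ((hYZ w).1 h), ?_⟩, ?_⟩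
      · intro hwz
        rcases (h2 w).2 (Or.inr rfl) with h | h
        · rw [hwz] at h
          exact cX h
        · exact yz (h.symm.trans hwz)
      · intro i
        have h5 := h2 i
        have h6 := hYZ i
        tauto
  · subst hy
    rcases hz4 with hz | hz
    · subst hz
      have hzw : z = w := by
        rcases (h2 z).1 (Or.inr rfl) with h | h
        · exact absurd h zZ
        · exact h
      subst hzw
      have hXZ : ∀ i, i ∈ X ↔ i ∈ Z := by
        intro i
        constructor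
        · intro hi
          rcases (h2 i).1 (Or.inl hi) with h | h
          · exact h
          · rw [h] at hi
            exact absurd hi aX
        · intro hi
          rcases (h2 i).2 (Or.inl hi) with h | h
          · exact h
          · rw [h] at hi
            exact absurd hi zZ
      have hcz : c = z := by
        rcases (h3 c).1 (Or.inr rfl) with h | h
        · exact absurd ((hXZ c).2 h) cX
        · exact h
      subst hcz
      have hYZ : ∀ i, i ∈ Y ↔ i ∈ Z := by
        intro i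
        constructor
        · intro hi
          rcases (h3 i).1 (Or.inl hi) with h | h
          · exact h
          · rw [h] at hi
            exact absurd hi cY
        · intro hi
          rcases (h3 i).2 (Or.inl hi) with h | h
          · exact h
          · rw [h] at hi
            exact absurd hi zZ
      refine ⟨⟨fun h => bY ((hYZ y).2 ((hXZ y).1 h)), yz⟩, ⟨cY, yz.symm⟩, ?_⟩
      intro i
      have h5 := hXZ i
      have h6 := hYZ i
      tauto
    · exact absurd hz.symm yz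

theorem pet_sound (k : ℕ) (hk : 3 ≤ k) (n : ℕ) (A : Fin n → Finset (Fin 14))
    (h1 : ∀ f, (univ.filter (fun i => f ∈ A i)).card = pW k f)
    (hin : ∀ v, v ≠ 0 → v ≠ 1 → ∀ i, bd pS pT (A i) v = 0) :
    ∃ S : Finset (Fin n), S.card = k ∧ (∀ i, bd pS pT (A i) 0 = if i ∈ S then 1 else 0) ∧
      ∀ i, bd pS pT (A i) 1 = if i ∈ S then 1 else 0 := by
  let C : Fin 14 → Finset (Fin n) := fun f => univ.filter (fun i => f ∈ A i)
  have hC : ∀ f i, i ∈ C f ↔ f ∈ A i := by
    intro f i
    simp [C]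
  have t3 : ∀ (f1 f2 f3 : Fin 14), (∀ i, (if f1 ∈ A i then (1 : ZMod 2) else 0) + (if f2 ∈ A i then 1 else 0)
      + (if f3 ∈ A i then 1 else 0) = 0) → (C f1).card = (C f2).card + (C f3).card →
      (∀ i, i ∈ C f1 ↔ i ∈ C f2 ∨ i ∈ C f3) ∧ ∀ i, i ∈ C f2 → i ∉ C f3 := by
    intro f1 f2 f3 h3 h4
    apply tight _ _ _ _ h4
    intro i
    rw [hC, hC, hC]
    exact xor3 _ _ _ (h3 i)
  have c0 : (C 0).card = k - 1 := h1 0
  have c1 : (C 1).card = k - 1 := h1 1
  have c2 : (C 2).card = k - 1 := h1 2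
  have c3 : (C 3).card = k - 1 := h1 3
  have c4 : (C 4).card = 2 := h1 4
  have c5 : (C 5).card = k - 2 := h1 5
  have c6 : (C 6).card = k - 2 := h1 6
  have c7 : (C 7).card = k - 2 := h1 7
  have c8 : (C 8).card = 1 := h1 8
  have c9 : (C 9).card = 1 := h1 9
  have c10 : (C 10).card = 1 := h1 10
  have c11 : (C 11).card = 1 := h1 11
  have c12 : (C 12).card = 1 := h1 12
  have c13 : (C 13).card = 1 := h1 13
  obtain ⟨q2, r2⟩ := t3 2 7 8 (fun i => (b2 (A i)).symm.trans (hin 2 (by decide) (by decide) i))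
    (by rw [c2, c7, c8]; omega)
  obtain ⟨q3, r3⟩ := t3 3 7 9 (fun i => (b3 (A i)).symm.trans (hin 3 (by decide) (by decide) i))
    (by rw [c3, c7, c9]; omega)
  obtain ⟨q4, r4⟩ := t3 4 9 10 (fun i => (b4 (A i)).symm.trans (hin 4 (by decide) (by decide) i))
    (by rw [c4, c9, c10])
  obtain ⟨q5, r5⟩ := t3 0 5 13 (fun i => (b5 (A i)).symm.trans (hin 5 (by decide) (by decide) i))
    (by rw [c0, c5, c13]; omega)
  obtain ⟨q6, r6⟩ := t3 1 6 12 (fun i => (b6 (A i)).symm.trans (hin 6 (by decide) (by decide) i))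
    (by rw [c1, c6, c12]; omega)
  obtain ⟨q7, r7⟩ := t3 2 5 11 (fun i => (b7 (A i)).symm.trans (hin 7 (by decide) (by decide) i))
    (by rw [c2, c5, c11]; omega)
  obtain ⟨q8, r8⟩ := t3 3 6 13 (fun i => (b8 (A i)).symm.trans (hin 8 (by decide) (by decide) i))
    (by rw [c3, c6, c13]; omega)
  obtain ⟨q9, r9⟩ := t3 4 11 12 (fun i => (b9 (A i)).symm.trans (hin 9 (by decide) (by decide) i))
    (by rw [c4, c11, c12])
  obtain ⟨w, e8⟩ := card_eq_one.1 c8
  obtain ⟨z, e9⟩ := card_eq_one.1 c9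
  obtain ⟨y, e10⟩ := card_eq_one.1 c10
  obtain ⟨a, e11⟩ := card_eq_one.1 c11
  obtain ⟨b, e12⟩ := card_eq_one.1 c12
  obtain ⟨c, e13⟩ := card_eq_one.1 c13
  have s8 : ∀ i, i ∈ C 8 ↔ i = w := fun i => by rw [e8, mem_singleton]
  have s9 : ∀ i, i ∈ C 9 ↔ i = z := fun i => by rw [e9, mem_singleton]
  have s10 : ∀ i, i ∈ C 10 ↔ i = y := fun i => by rw [e10, mem_singleton]
  have s11 : ∀ i, i ∈ C 11 ↔ i = a := fun i => by rw [e11, mem_singleton]
  have s12 : ∀ i, i ∈ C 12 ↔ i = b := fun i => by rw [e12, mem_singleton]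
  have s13 : ∀ i, i ∈ C 13 ↔ i = c := fun i => by rw [e13, mem_singleton]
  have cX : c ∉ C 5 := fun h => r5 c h ((s13 c).2 rfl)
  have aX : a ∉ C 5 := fun h => r7 a h ((s11 a).2 rfl)
  have wZ : w ∉ C 7 := fun h => r2 w h ((s8 w).2 rfl)
  have zZ : z ∉ C 7 := fun h => r3 z h ((s9 z).2 rfl)
  have bY : b ∉ C 6 := fun h => r6 b h ((s12 b).2 rfl)
  have cY : c ∉ C 6 := fun h => r8 c h ((s13 c).2 rfl)
  have yz : y ≠ z := fun h => r4 y ((s9 y).2 h) ((s10 y).2 rfl)
  obtain ⟨⟨g1, g2⟩, ⟨g3, g4⟩, g5⟩ := core (C 5) (C 6) (C 7) w z y a b c cX aX wZ zZ bY cY yz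
    (fun i => by rw [← s11 i, ← q7 i, q2 i, s8 i]) (fun i => by rw [← s13 i, ← q8 i, q3 i, s9 i])
    (fun i => by rw [← s11 i, ← s12 i, ← q9 i, q4 i, s9 i, s10 i])
  have y0 : y ∉ C 0 := by
    rw [q5, s13]
    rintro (h | h)
    · exact g1 h
    · exact g2 h
  have w1 : w ∉ C 1 := by
    rw [q6, s12]
    rintro (h | h)
    · exact g3 h
    · exact g4 h
  have key : ∀ i, i ∈ insert y (C 0) ↔ i ∈ C 1 ∨ i = w := by
    intro i
    rw [mem_insert, q6, s12, ← g5 i, q5, s13]
    exact or_comm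
  refine ⟨insert y (C 0), ?_, ?_, ?_⟩
  · rw [card_insert_of_notMem y0, c0]
    omega
  · intro i
    rw [b0]
    have e1 : (0 : Fin 14) ∈ A i ↔ i ∈ C 0 := (hC 0 i).symm
    have e2 : (10 : Fin 14) ∈ A i ↔ i = y := by rw [← hC, s10]
    have e3 : i ∈ insert y (C 0) ↔ i = y ∨ i ∈ C 0 := mem_insert
    simp only [e1, e2, e3]
    by_cases h5 : i = y
    · have h6 : i ∉ C 0 := by rw [h5]; exact y0
      rw [if_neg h6, if_pos h5, if_pos (Or.inl h5), zero_add]
    · by_cases h6 : i ∈ C 0
      · rw [if_pos h6, if_neg h5, if_pos (Or.inr h6), add_zero]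
      · rw [if_neg h6, if_neg h5, if_neg (by rw [not_or]; exact ⟨h5, h6⟩), add_zero]
  · intro i
    rw [b1]
    have e1 : (1 : Fin 14) ∈ A i ↔ i ∈ C 1 := (hC 1 i).symm
    have e2 : (8 : Fin 14) ∈ A i ↔ i = w := by rw [← hC, s8]
    simp only [e1, e2, key i]
    by_cases h5 : i = w
    · have h6 : i ∉ C 1 := by rw [h5]; exact w1
      rw [if_neg h6, if_pos h5, if_pos (Or.inr h5), zero_add]
    · by_cases h6 : i ∈ C 1
      · rw [if_pos h6, if_neg h5, if_pos (Or.inl h6), add_zero]
      · rw [if_neg h6, if_neg h5, if_neg (by rw [not_or]; exact ⟨h6, h5⟩), add_zero]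

theorem pet_complete (k : ℕ) (hk : 3 ≤ k) (n : ℕ) (S : Finset (Fin n)) (hS : S.card = k) :
    ∃ A : Fin n → Finset (Fin 14), (∀ f, (univ.filter (fun i => f ∈ A i)).card = pW k f) ∧
      ∀ i v, bd pS pT (A i) v = if i ∈ S then (if (0 : Fin 10) = v then 1 else 0) + (if (1 : Fin 10) = v then 1 else 0)
        else 0 := by
  obtain ⟨y, hy, z, hz, hyz⟩ := one_lt_card.1 (show 1 < S.card by omega)
  let D : Fin 14 → Finset (Fin n) := ![S.erase y, S.erase y, S.erase z, S.erase y, {y, z}, (S.erase y).erase z,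
    (S.erase y).erase z, (S.erase y).erase z, {y}, {z}, {y}, {y}, {z}, {z}]
  have hcy : (S.erase y).card = k - 1 := by rw [card_erase_of_mem hy, hS]
  have hcz : (S.erase z).card = k - 1 := by rw [card_erase_of_mem hz, hS]
  have hcyz : ((S.erase y).erase z).card = k - 2 := by
    rw [card_erase_of_mem (mem_erase.2 ⟨hyz.symm, hz⟩), hcy]
    omega
  have hc2 : ({y, z} : Finset (Fin n)).card = 2 := card_pair hyz
  refine ⟨fun i => univ.filter (fun f => i ∈ D f), ?_, ?_⟩
  · intro f
    have hf : (univ.filter (fun i => f ∈ univ.filter (fun f => i ∈ D f))) = D f := by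
      ext i
      simp
    show (univ.filter (fun i => f ∈ univ.filter (fun f => i ∈ D f))).card = _
    rw [hf]
    fin_cases f
    · exact hcy
    · exact hcy
    · exact hcz
    · exact hcy
    · exact hc2
    · exact hcyz
    · exact hcyz
    · exact hcyz
    all_goals exact card_singleton _
  · intro i v
    have hm : ∀ f, f ∈ univ.filter (fun f => i ∈ D f) ↔ i ∈ D f := by
      intro f
      simp
    have m0 : i ∈ D 0 ↔ i ≠ y ∧ i ∈ S := mem_erase
    have m1 : i ∈ D 1 ↔ i ≠ y ∧ i ∈ S := mem_erase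
    have m2 : i ∈ D 2 ↔ i ≠ z ∧ i ∈ S := mem_erase
    have m3 : i ∈ D 3 ↔ i ≠ y ∧ i ∈ S := mem_erase
    have m4 : i ∈ D 4 ↔ i = y ∨ i = z := by
      show i ∈ ({y, z} : Finset (Fin n)) ↔ _
      rw [mem_insert, mem_singleton]
    have m5 : i ∈ D 5 ↔ i ≠ z ∧ i ≠ y ∧ i ∈ S := by
      show i ∈ (S.erase y).erase z ↔ _
      rw [mem_erase, mem_erase]
    have m6 : i ∈ D 6 ↔ i ≠ z ∧ i ≠ y ∧ i ∈ S := m5
    have m7 : i ∈ D 7 ↔ i ≠ z ∧ i ≠ y ∧ i ∈ S := m5
    have m8 : i ∈ D 8 ↔ i = y := mem_singleton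
    have m9 : i ∈ D 9 ↔ i = z := mem_singleton
    have m10 : i ∈ D 10 ↔ i = y := mem_singleton
    have m11 : i ∈ D 11 ↔ i = y := mem_singleton
    have m12 : i ∈ D 12 ↔ i = z := mem_singleton
    have m13 : i ∈ D 13 ↔ i = z := mem_singleton
    clear_value D
    have hyz' := hyz.symm
    have htwo : (1 : ZMod 2) + 1 = 0 := by decide
    have hcase : i = y ∨ i = z ∨ (i ≠ y ∧ i ≠ z ∧ i ∈ S) ∨ (i ≠ y ∧ i ≠ z ∧ i ∉ S) := by
      by_cases g1 : i = y
      · exact Or.inl g1
      · by_cases g2 : i = z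
        · exact Or.inr (Or.inl g2)
        · by_cases g3 : i ∈ S
          · exact Or.inr (Or.inr (Or.inl ⟨g1, g2, g3⟩))
          · exact Or.inr (Or.inr (Or.inr ⟨g1, g2, g3⟩))
    have k0 : (if (0 : Fin 10) = 0 then (1 : ZMod 2) else 0) + (if (1 : Fin 10) = 0 then 1 else 0) = 1 := by decide
    have k1 : (if (0 : Fin 10) = 1 then (1 : ZMod 2) else 0) + (if (1 : Fin 10) = 1 then 1 else 0) = 1 := by decide
    have kv : ∀ v : Fin 10, v ≠ 0 → v ≠ 1 →
        (if (0 : Fin 10) = v then (1 : ZMod 2) else 0) + (if (1 : Fin 10) = v then 1 else 0) = 0 := by decide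
    have fin3 : ∀ (v : Fin 10) (P Q R : Prop) [Decidable P] [Decidable Q] [Decidable R], v ≠ 0 → v ≠ 1 →
        bd pS pT (univ.filter (fun f => i ∈ D f)) v
          = (if P then 1 else 0) + (if Q then 1 else 0) + (if R then 1 else 0) →
        ((P ∧ Q ∧ ¬ R) ∨ (P ∧ ¬ Q ∧ R) ∨ (¬ P ∧ ¬ Q ∧ ¬ R)) →
        bd pS pT (univ.filter (fun f => i ∈ D f)) v
          = if i ∈ S then (if (0 : Fin 10) = v then 1 else 0) + (if (1 : Fin 10) = v then 1 else 0) else 0 := by
      intro v P Q R _ _ _ hv0 hv1 h1 h2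
      rw [h1, kv v hv0 hv1, ite_self]
      rcases h2 with h2 | h2 | h2
      · simp [h2.1, h2.2.1, h2.2.2, htwo]
      · simp [h2.1, h2.2.1, h2.2.2, htwo]
      · simp [h2.1, h2.2.1, h2.2.2]
    fin_cases v
    · show bd pS pT (univ.filter (fun f => i ∈ D f)) 0 = if i ∈ S then
        (if (0 : Fin 10) = 0 then 1 else 0) + (if (1 : Fin 10) = 0 then 1 else 0) else 0
      rw [b0, k0]
      simp only [hm, m0, m10]
      rcases hcase with h | h | h | h
      · simp [h, hy]
      · simp [h, hz, hyz']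
      · simp [h.1, h.2.1, h.2.2]
      · simp [h.1, h.2.1, h.2.2]
    · show bd pS pT (univ.filter (fun f => i ∈ D f)) 1 = if i ∈ S then
        (if (0 : Fin 10) = 1 then 1 else 0) + (if (1 : Fin 10) = 1 then 1 else 0) else 0
      rw [b1, k1]
      simp only [hm, m1, m8]
      rcases hcase with h | h | h | h
      · simp [h, hy]
      · simp [h, hz, hyz']
      · simp [h.1, h.2.1, h.2.2]
      · simp [h.1, h.2.1, h.2.2]
    · refine fin3 2 _ _ _ (by decide) (by decide) (b2 _) ?_
      simp only [hm, m2, m7, m8]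
      rcases hcase with h | h | h | h
      · simp [h, hy, hyz]
      · simp [h, hz, hyz']
      · simp [h.1, h.2.1, h.2.2]
      · simp [h.1, h.2.1, h.2.2]
    · refine fin3 3 _ _ _ (by decide) (by decide) (b3 _) ?_
      simp only [hm, m3, m7, m9]
      rcases hcase with h | h | h | h
      · simp [h, hy, hyz]
      · simp [h, hz, hyz']
      · simp [h.1, h.2.1, h.2.2]
      · simp [h.1, h.2.1, h.2.2]
    · refine fin3 4 _ _ _ (by decide) (by decide) (b4 _) ?_
      simp only [hm, m4, m9, m10]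
      rcases hcase with h | h | h | h
      · simp [h, hyz]
      · simp [h, hyz']
      · simp [h.1, h.2.1, h.2.2]
      · simp [h.1, h.2.1, h.2.2]
    · refine fin3 5 _ _ _ (by decide) (by decide) (b5 _) ?_
      simp only [hm, m0, m5, m13]
      rcases hcase with h | h | h | h
      · simp [h, hy, hyz]
      · simp [h, hz, hyz']
      · simp [h.1, h.2.1, h.2.2]
      · simp [h.1, h.2.1, h.2.2]
    · refine fin3 6 _ _ _ (by decide) (by decide) (b6 _) ?_
      simp only [hm, m1, m6, m12]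
      rcases hcase with h | h | h | h
      · simp [h, hy, hyz]
      · simp [h, hz, hyz']
      · simp [h.1, h.2.1, h.2.2]
      · simp [h.1, h.2.1, h.2.2]
    · refine fin3 7 _ _ _ (by decide) (by decide) (b7 _) ?_
      simp only [hm, m2, m5, m11]
      rcases hcase with h | h | h | h
      · simp [h, hy, hyz]
      · simp [h, hz, hyz']
      · simp [h.1, h.2.1, h.2.2]
      · simp [h.1, h.2.1, h.2.2]
    · refine fin3 8 _ _ _ (by decide) (by decide) (b8 _) ?_
      simp only [hm, m3, m6, m13]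
      rcases hcase with h | h | h | h
      · simp [h, hy, hyz]
      · simp [h, hz, hyz']
      · simp [h.1, h.2.1, h.2.2]
      · simp [h.1, h.2.1, h.2.2]
    · refine fin3 9 _ _ _ (by decide) (by decide) (b9 _) ?_
      simp only [hm, m4, m11, m12]
      rcases hcase with h | h | h | h
      · simp [h, hyz]
      · simp [h, hyz']
      · simp [h.1, h.2.1, h.2.2]
      · simp [h.1, h.2.1, h.2.2]

theorem pet_good (k : ℕ) (hk : 3 ≤ k) : Good (pet k) k := by
  intro n d hd
  constructor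
  · rintro ⟨A, h1, h2⟩
    obtain ⟨S, h3, h4, h5⟩ := pet_sound k hk n A h1 (fun v hv0 hv1 i => (h2 i v).trans (hd i v hv0 hv1))
    refine ⟨S, h3, ?_⟩
    intro i w
    have k0 : (if (0 : Fin 10) = 0 then (1 : ZMod 2) else 0) + (if (1 : Fin 10) = 0 then 1 else 0) = 1 := by decide
    have k1 : (if (0 : Fin 10) = 1 then (1 : ZMod 2) else 0) + (if (1 : Fin 10) = 1 then 1 else 0) = 1 := by decide
    have kv : ∀ v : Fin 10, v ≠ 0 → v ≠ 1 →
        (if (0 : Fin 10) = v then (1 : ZMod 2) else 0) + (if (1 : Fin 10) = v then 1 else 0) = 0 := by decide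
    by_cases hw0 : w = (0 : Fin 10)
    · subst hw0
      refine ((h2 i _).symm.trans (h4 i)).trans ?_
      show _ = if i ∈ S then (if (0 : Fin 10) = 0 then (1 : ZMod 2) else 0) + (if (1 : Fin 10) = 0 then 1 else 0) else 0
      rw [k0]
    · by_cases hw1 : w = (1 : Fin 10)
      · subst hw1
        refine ((h2 i _).symm.trans (h5 i)).trans ?_
        show _ = if i ∈ S then (if (0 : Fin 10) = 1 then (1 : ZMod 2) else 0) + (if (1 : Fin 10) = 1 then 1 else 0) else 0
        rw [k1]
      · rw [hd i w hw0 hw1]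
        show _ = if i ∈ S then (if (0 : Fin 10) = w then (1 : ZMod 2) else 0) + (if (1 : Fin 10) = w then 1 else 0) else 0
        rw [kv w hw0 hw1, ite_self]
  · rintro ⟨S, hS, hdS⟩
    obtain ⟨A, h1, h2⟩ := pet_complete k hk n S hS
    exact ⟨A, h1, fun i v => (h2 i v).trans (hdS i v).symm⟩

end Pool.Agent.Helper59.CW
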