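import Pool.Agent.Helper59.CW.Comp
import Pool.Agent.Helper59.CW.Defs2

/-!
MP_1bf3cf_lc: replacement of the vertices of a graph by graphs to which the edge ends are attached.
-/

set_option autoImplicit false
set_option linter.unusedSectionVars false
set_option linter.unusedSimpArgs false

namespace Pool.Agent.Helper59.CW

open Finset

/-- A covering with the colours `c h` at the ends `h` extends to the pole. -/
def Pole.Ext {O : Type} [Fintype O] (Q : Pole O) (n : ℕ) (c : O → Finset (Fin n)) : Prop :=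
  ∃ A : Fin n → Finset Q.F, (∀ f, (univ.filter (fun i => f ∈ A i)).card = Q.p f) ∧
    ∀ i w, bd Q.s Q.t (A i) w + ∑ h, (if Q.o h = w ∧ i ∈ c h then (1 : ZMod 2) else 0) = 0

section wsum

variable {V E : Type} [Fintype V] [DecidableEq V] [Fintype E] [DecidableEq E]

/-- The sum of `g` over the ends of edges at `v`. -/
def wbd {R : Type} [CommSemiring R] (s t : E → V) (g : E → R) (v : V) : R :=
  ∑ e, g e * ((if s e = v then 1 else 0) + (if t e = v then 1 else 0))

lemma bd_wbd (s t : E → V) (A : Finset E) (v : V) :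
    bd s t A v = wbd s t (fun e => if e ∈ A then (1 : ZMod 2) else 0) v := by
  unfold bd wbd
  apply sum_congr rfl
  intro e _
  beta_reduce
  by_cases h : e ∈ A
  · rw [if_pos h, if_pos h, one_mul]
  · rw [if_neg h, if_neg h, zero_mul]

lemma wbd_cast (s t : E → V) (g : E → ℕ) (v : V) :
    ((wbd s t g v : ℕ) : ZMod 2) = wbd s t (fun e => (g e : ZMod 2)) v := by
  unfold wbd
  push_cast
  rfl

lemma half_sum {M : Type} [AddCommMonoid M] (s t : E → V) (v : V) (g : E × Bool → M) :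
    ∑ h : Half s t v, g h.1 = ∑ x : E × Bool, if endp s t x = v then g x else 0 := by
  rw [← sum_filter]
  exact (Finset.sum_subtype (univ.filter (fun x => endp s t x = v)) (fun x => by simp) g).symm

lemma pair_sum {M : Type} [AddCommMonoid M] (g : E × Bool → M) :
    ∑ x : E × Bool, g x = ∑ e, (g (e, false) + g (e, true)) := by
  rw [Fintype.sum_prod_type]
  apply sum_congr rfl
  intro e _
  rw [Fintype.sum_bool, add_comm]

lemma wbd_half {R : Type} [CommSemiring R] (s t : E → V) (g : E → R) (v : V) :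
    wbd s t g v = ∑ h : Half s t v, g h.1.1 := by
  rw [half_sum s t v (fun x => g x.1), pair_sum]
  unfold wbd
  apply sum_congr rfl
  intro e _
  unfold endp
  rw [mul_add]
  simp

lemma wbd_total {R : Type} [CommSemiring R] (s t : E → V) (g : E → R) : ∑ v, wbd s t g v = ∑ e, g e * 2 := by
  unfold wbd
  rw [sum_comm]
  apply sum_congr rfl
  intro e _
  rw [← mul_sum, sum_add_distrib]
  simp only [sum_ite_eq, mem_univ, if_true]
  norm_num

lemma bd_total (s t : E → V) (A : Finset E) : ∑ w, bd s t A w = 0 := by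
  simp only [bd_wbd]
  rw [wbd_total]
  apply sum_eq_zero
  intro e _
  rw [show (2 : ZMod 2) = 0 from by decide, mul_zero]

end wsum

section vr

variable {V E : Type} [Fintype V] [DecidableEq V] [Fintype E] [DecidableEq E]

lemma att_eq (s t : E → V) (P : ∀ v, Pole (Half s t v)) (v : V) (w : (P v).W) (x : E × Bool) :
    att s t P x = ⟨v, w⟩ ↔ ∃ h : endp s t x = v, (P v).o ⟨x, h⟩ = w := by
  unfold att
  constructor
  · intro h
    obtain ⟨h1, h2⟩ := Sigma.mk.inj_iff.1 h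
    subst h1
    exact ⟨rfl, eq_of_heq h2⟩
  · rintro ⟨h1, h2⟩
    subst h1
    rw [h2]

lemma outer_sum {R : Type} [CommSemiring R] (s t : E → V) (P : ∀ v, Pole (Half s t v)) (v : V) (w : (P v).W)
    (g : E → R) :
    ∑ e, g e * ((if att s t P (e, false) = ⟨v, w⟩ then 1 else 0) + (if att s t P (e, true) = ⟨v, w⟩ then 1 else 0))
      = ∑ h : Half s t v, (if (P v).o h = w then g h.1.1 else 0) := by
  have h1 : ∑ e, g e * ((if att s t P (e, false) = ⟨v, w⟩ then 1 else 0)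
        + (if att s t P (e, true) = ⟨v, w⟩ then 1 else 0))
      = ∑ x : E × Bool, (if att s t P x = ⟨v, w⟩ then g x.1 else 0) := by
    rw [pair_sum]
    apply sum_congr rfl
    intro e _
    rw [mul_add]
    simp
  rw [h1]
  have h2 : ∀ x : E × Bool, (if att s t P x = ⟨v, w⟩ then g x.1 else 0)
      = if endp s t x = v then (if att s t P x = ⟨v, w⟩ then g x.1 else 0) else 0 := by
    intro x
    by_cases h : endp s t x = v
    · rw [if_pos h]
    · rw [if_neg h, if_neg]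
      intro h3
      exact h ((att_eq s t P v w x).1 h3).1
  rw [sum_congr rfl (fun x _ => h2 x),
    ← half_sum s t v (fun x => if att s t P x = ⟨v, w⟩ then g x.1 else 0)]
  apply sum_congr rfl
  rintro ⟨x, hx⟩ _
  have h3 : att s t P x = ⟨v, w⟩ ↔ (P v).o ⟨x, hx⟩ = w := by
    rw [att_eq]
    exact ⟨fun ⟨_, h⟩ => h, fun h => ⟨hx, h⟩⟩
  by_cases h5 : (P v).o ⟨x, hx⟩ = w
  · rw [if_pos (h3.2 h5), if_pos h5]
  · rw [if_neg (fun h => h5 (h3.1 h)), if_neg h5]

lemma wbd_vr {R : Type} [CommSemiring R] (s t : E → V) (P : ∀ v, Pole (Half s t v))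
    (g : E ⊕ (Σ v, (P v).F) → R) (v : V) (w : (P v).W) :
    wbd (vS s t P) (vT s t P) g ⟨v, w⟩
      = ∑ h : Half s t v, (if (P v).o h = w then g (Sum.inl h.1.1) else 0)
        + wbd (P v).s (P v).t (fun f => g (Sum.inr ⟨v, f⟩)) w := by
  unfold wbd
  rw [Fintype.sum_sum_type]
  refine congrArg₂ _ ?_ ?_
  · exact outer_sum s t P v w (fun e => g (Sum.inl e))
  · rw [Fintype.sum_sigma, Fintype.sum_eq_single v]
    · apply sum_congr rfl
      intro f _
      have h1 : (vS s t P (Sum.inr ⟨v, f⟩) = ⟨v, w⟩) ↔ (P v).s f = w := by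
        show ((⟨v, (P v).s f⟩ : Σ v, (P v).W) = ⟨v, w⟩) ↔ _
        simp
      have h2 : (vT s t P (Sum.inr ⟨v, f⟩) = ⟨v, w⟩) ↔ (P v).t f = w := by
        show ((⟨v, (P v).t f⟩ : Σ v, (P v).W) = ⟨v, w⟩) ↔ _
        simp
      simp only [h1, h2]
    · intro v' hv'
      apply sum_eq_zero
      intro f _
      have h1 : ¬ (vS s t P (Sum.inr ⟨v', f⟩) = ⟨v, w⟩) := by
        intro h
        exact hv' (Sigma.mk.inj_iff.1 h).1
      have h2 : ¬ (vT s t P (Sum.inr ⟨v', f⟩) = ⟨v, w⟩) := by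
        intro h
        exact hv' (Sigma.mk.inj_iff.1 h).1
      rw [if_neg h1, if_neg h2, add_zero, mul_zero]

/-- The part of `A` in the pole at `v`. -/
def vsl (s t : E → V) (P : ∀ v, Pole (Half s t v)) (A : Finset (E ⊕ (Σ v, (P v).F))) (v : V) : Finset (P v).F :=
  univ.filter (fun f => (Sum.inr ⟨v, f⟩ : E ⊕ (Σ v, (P v).F)) ∈ A)

lemma mem_vsl (s t : E → V) (P : ∀ v, Pole (Half s t v)) (A : Finset (E ⊕ (Σ v, (P v).F))) (v : V) (f : (P v).F) :
    f ∈ vsl s t P A v ↔ (Sum.inr ⟨v, f⟩ : E ⊕ (Σ v, (P v).F)) ∈ A := by simp [vsl]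

lemma bd_vr (s t : E → V) (P : ∀ v, Pole (Half s t v)) (A : Finset (E ⊕ (Σ v, (P v).F))) (v : V) (w : (P v).W) :
    bd (vS s t P) (vT s t P) A ⟨v, w⟩
      = ∑ h : Half s t v, (if (P v).o h = w then
          (if (Sum.inl h.1.1 : E ⊕ (Σ v, (P v).F)) ∈ A then (1 : ZMod 2) else 0) else 0)
        + bd (P v).s (P v).t (vsl s t P A v) w := by
  rw [bd_wbd, wbd_vr, bd_wbd]
  refine congrArg₂ _ rfl ?_
  unfold wbd
  apply sum_congr rfl
  intro f _
  beta_reduce
  by_cases h : (Sum.inr ⟨v, f⟩ : E ⊕ (Σ v, (P v).F)) ∈ A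
  · rw [if_pos h, if_pos ((mem_vsl s t P A v f).2 h)]
  · rw [if_neg h, if_neg (fun h1 => h ((mem_vsl s t P A v f).1 h1))]

theorem vr_sound (s t : E → V) (p : E → ℕ) (P : ∀ v, Pole (Half s t v)) (n : ℕ)
    (h : Real (vS s t P) (vT s t P) (vP s t p P) n (fun _ _ => 0)) : Real s t p n (fun _ _ => 0) := by
  obtain ⟨A, h1, h2⟩ := h
  have hm : ∀ i e, e ∈ univ.filter (fun e => (Sum.inl e : E ⊕ (Σ v, (P v).F)) ∈ A i) ↔
      (Sum.inl e : E ⊕ (Σ v, (P v).F)) ∈ A i := by
    intro i e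
    rw [mem_filter]
    exact ⟨fun h => h.2, fun h => ⟨mem_univ _, h⟩⟩
  refine ⟨fun i => univ.filter (fun e => (Sum.inl e : E ⊕ (Σ v, (P v).F)) ∈ A i), ?_, ?_⟩
  · intro e
    have h3 : (univ.filter (fun i => (Sum.inl e : E ⊕ (Σ v, (P v).F)) ∈ A i)).card = p e := h1 (Sum.inl e)
    rw [← h3]
    refine congrArg _ (filter_congr fun i _ => hm i e)
  · intro i v
    have h3 : ∑ w, bd (vS s t P) (vT s t P) (A i) ⟨v, w⟩ = 0 := sum_eq_zero fun w _ => h2 i ⟨v, w⟩
    simp only [bd_vr] at h3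
    rw [sum_add_distrib, bd_total, add_zero, sum_comm] at h3
    show bd s t (univ.filter (fun e => (Sum.inl e : E ⊕ (Σ v, (P v).F)) ∈ A i)) v = 0
    rw [bd_wbd, wbd_half]
    refine Eq.trans ?_ h3
    apply sum_congr rfl
    intro x _
    rw [sum_ite_eq, if_pos (mem_univ _)]
    by_cases h4 : (Sum.inl x.1.1 : E ⊕ (Σ v, (P v).F)) ∈ A i
    · rw [if_pos h4, if_pos ((hm i _).2 h4)]
    · rw [if_neg h4, if_neg (fun h => h4 ((hm i _).1 h))]

theorem vr_complete (s t : E → V) (p : E → ℕ) (P : ∀ v, Pole (Half s t v)) (n : ℕ) (A : Fin n → Finset E)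
    (h1 : ∀ e, (univ.filter (fun i => e ∈ A i)).card = p e)
    (h2 : ∀ v, (P v).Ext n (fun h => univ.filter (fun i => h.1.1 ∈ A i))) :
    Real (vS s t P) (vT s t P) (vP s t p P) n (fun _ _ => 0) := by
  classical
  choose B h3 h4 using h2
  let A' : Fin n → Finset (E ⊕ (Σ v, (P v).F)) := fun i =>
    univ.filter (fun x => Sum.elim (fun e => e ∈ A i) (fun y : Σ v, (P v).F => y.2 ∈ B y.1 i) x)
  have hl : ∀ i e, (Sum.inl e : E ⊕ (Σ v, (P v).F)) ∈ A' i ↔ e ∈ A i := by
    intro i e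
    simp [A']
  have hr : ∀ i v (f : (P v).F), (Sum.inr ⟨v, f⟩ : E ⊕ (Σ v, (P v).F)) ∈ A' i ↔ f ∈ B v i := by
    intro i v f
    simp [A']
  refine ⟨A', ?_, ?_⟩
  · rintro (e | ⟨v, f⟩)
    · have h5 : (univ.filter (fun i => (Sum.inl e : E ⊕ (Σ v, (P v).F)) ∈ A' i)) = univ.filter (fun i => e ∈ A i) :=
        filter_congr fun i _ => hl i e
      rw [h5]
      exact h1 e
    · have h5 : (univ.filter (fun i => (Sum.inr ⟨v, f⟩ : E ⊕ (Σ v, (P v).F)) ∈ A' i))
          = univ.filter (fun i => f ∈ B v i) := filter_congr fun i _ => hr i v f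
      rw [h5]
      exact h3 v f
  · rintro i ⟨v, w⟩
    have h5 : vsl s t P (A' i) v = B v i := by
      ext f
      rw [mem_vsl, hr]
    rw [bd_vr, h5, add_comm]
    refine Eq.trans ?_ (h4 v i w)
    refine congrArg₂ _ rfl ?_
    apply sum_congr rfl
    intro x _
    have h7 : i ∈ univ.filter (fun i => x.1.1 ∈ A i) ↔ x.1.1 ∈ A i := by
      rw [mem_filter]
      exact ⟨fun h => h.2, fun h => ⟨mem_univ _, h⟩⟩
    by_cases h8 : (P v).o x = w
    · by_cases h9 : x.1.1 ∈ A i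
      · rw [if_pos h8, if_pos ((hl i _).2 h9), if_pos ⟨h8, h7.2 h9⟩]
      · rw [if_pos h8, if_neg (fun h => h9 ((hl i _).1 h)), if_neg (fun h => h9 (h7.1 h.2))]
    · rw [if_neg h8, if_neg (fun h => h8 h.1)]

end vr

end Pool.Agent.Helper59.CW
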